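import Pool.Agent.H860R3.Lamp.Core

/-!
# Peripheral cycles of planar quasi-transitive graphs have bounded length
-/

namespace H860R3.Lamp

open SimpleGraph

variable {W : Type} {H : SimpleGraph W}

lemma length_eq_of_edgeSet_eq {P P' : PeripheralCycle H} (h : P.edgeSet = P'.edgeSet) :
    P.c.length = P'.c.length := by
  classical
  rw [← P.c.length_edges, ← P'.c.length_edges,
    ← List.toFinset_card_of_nodup P.isCycle.edges_nodup,
    ← List.toFinset_card_of_nodup P'.isCycle.edges_nodup]
  congr 1
  ext e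
  rw [List.mem_toFinset, List.mem_toFinset]
  exact (Set.ext_iff.1 h e)

lemma edge_bound (hfin : ∀ v, (H.neighborSet v).Finite)
    (h2c : ∀ x a b : W, a ≠ x → b ≠ x → ∃ w : H.Walk a b, x ∉ w.support)
    (hpl : MacLanePlanar H) (e : Sym2 W) :
    ∃ L : ℕ, ∀ P : PeripheralCycle H, e ∈ P.edgeSet → P.c.length ≤ L := by
  by_contra hcon
  push Not at hcon
  obtain ⟨P1, h1, -⟩ := hcon 0
  obtain ⟨P2, h2, h12⟩ := hcon P1.c.length
  obtain ⟨P3, h3, h23⟩ := hcon P2.c.length
  obtain ⟨j, k, hjk, hE⟩ := at_most_two hfin h2c hpl ![P1, P2, P3] e (by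
    intro j
    fin_cases j
    · exact h1
    · exact h2
    · exact h3)
  have hlen := length_eq_of_edgeSet_eq hE
  fin_cases j <;> fin_cases k <;> simp at hjk hlen <;> omega

/-- image of a peripheral cycle under an automorphism -/
def PeripheralCycle.map (P : PeripheralCycle H) (φ : H ≃g H) : PeripheralCycle H where
  a := φ P.a
  c := P.c.map φ.toHom
  isCycle := (Walk.isCycle_map_iff_of_injective (f := φ.toHom) φ.injective).2 P.isCycle
  induced := by
    intro x y hx hy hxy
    rw [Walk.support_map, List.mem_map] at hx hy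
    obtain ⟨x', hx', rfl⟩ := hx
    obtain ⟨y', hy', rfl⟩ := hy
    have hadj : H.Adj x' y' := φ.map_rel_iff.1 hxy
    rw [Walk.edges_map, List.mem_map]
    exact ⟨s(x', y'), P.induced x' y' hx' hy' hadj, rfl⟩
  nonsep := by
    intro x y hx hy
    rw [Walk.support_map, List.mem_map] at hx hy
    have hx' : φ.symm x ∉ P.c.support := fun h => hx ⟨φ.symm x, h, φ.apply_symm_apply x⟩
    have hy' : φ.symm y ∉ P.c.support := fun h => hy ⟨φ.symm y, h, φ.apply_symm_apply y⟩
    obtain ⟨w, hw⟩ := P.nonsep _ _ hx' hy'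
    refine ⟨(w.map φ.toHom).copy (φ.apply_symm_apply x) (φ.apply_symm_apply y), ?_⟩
    intro z hz hz'
    rw [Walk.support_copy, Walk.support_map, List.mem_map] at hz
    obtain ⟨z1, hz1, rfl⟩ := hz
    rw [Walk.support_map, List.mem_map] at hz'
    obtain ⟨z2, hz2, h12⟩ := hz'
    have : z2 = z1 := φ.injective h12
    subst this
    exact hw z2 hz1 hz2

/-- the lengths of the peripheral cycles of a planar, 2-connected, locally finite, quasi-transitive
graph are bounded -/
theorem exists_length_bound (hfin : ∀ v, (H.neighborSet v).Finite)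
    (h2c : ∀ x a b : W, a ≠ x → b ≠ x → ∃ w : H.Walk a b, x ∉ w.support)
    (hpl : MacLanePlanar H) (hqt : QuasiTransitive H) :
    ∃ L : ℕ, ∀ P : PeripheralCycle H, P.c.length ≤ L := by
  classical
  choose Lb hLb using edge_bound hfin h2c hpl
  obtain ⟨s, hs, hs'⟩ := hqt
  let g : W → ℕ := fun u => (hfin u).toFinset.sup (fun x => Lb s(u, x))
  refine ⟨hs.toFinset.sup g, ?_⟩
  have hbase : ∀ P : PeripheralCycle H, P.c.length ≤ g P.a := by
    rintro ⟨a, c, hc, h1, h2⟩
    cases c with
    | nil => exact absurd hc (by simp)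
    | @cons _ x _ h p =>
      have hx : x ∈ (hfin a).toFinset := (hfin a).mem_toFinset.2 h
      have := hLb s(a, x) ⟨a, Walk.cons h p, hc, h1, h2⟩ (by
        unfold PeripheralCycle.edgeSet
        simp)
      exact this.trans (Finset.le_sup (f := fun x => Lb s(a, x)) hx)
  intro P
  obtain ⟨u, hu, φ, hφ⟩ := hs' P.a
  have h1 := hbase (P.map φ)
  have h2 : (P.map φ).c.length = P.c.length := by
    unfold PeripheralCycle.map
    simp
  have h3 : (P.map φ).a = u := hφ
  rw [h2, h3] at h1
  exact h1.trans (Finset.le_sup (f := g) (hs.mem_toFinset.2 hu))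

lemma subgraph_neighbors_finite (H : lamplighter.Subgraph) (v : H.verts) :
    (H.coe.neighborSet v).Finite := by
  have h := lamplighter_neighbors_finite v.1
  refine Set.Finite.of_injOn (f := Subtype.val) (t := lamplighter.neighborSet v.1) ?_
    (Subtype.val_injective.injOn) h
  intro w hw
  exact H.adj_sub hw

/-- No quasi-transitive planar 2-connected subgraph of the lamplighter graph in which every edge
lies on two peripheral cycles has infinite treewidth. -/
theorem planar_subgraph_boundedTreewidth (H : lamplighter.Subgraph)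
    (hqt : QuasiTransitive H.coe) (hpl : MacLanePlanar H.coe)
    (h2c : ∀ x a b : H.verts, a ≠ x → b ≠ x → ∃ w : H.coe.Walk a b, x ∉ w.support)
    (hfac : ∀ e ∈ H.coe.edgeSet, ∃ P P' : PeripheralCycle H.coe, P.edgeSet ≠ P'.edgeSet ∧
      e ∈ P.edgeSet ∧ e ∈ P'.edgeSet) : BoundedTreewidth H.coe := by
  have hfin := subgraph_neighbors_finite H
  obtain ⟨L, hL⟩ := exists_length_bound hfin h2c hpl hqt
  exact boundedTreewidth_of_hom H.hom H.hom_injective L
    (detect_of_facial hfin h2c hpl hfac L hL)

end H860R3.Lamp
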