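import Pool.Agent.H860R3.Lamp.Graph

/-!
# Brambles: the lamplighter graph has infinite treewidth
-/

namespace H860R3.Lamp

open SimpleGraph

section Helly

variable {ι : Type} {T : SimpleGraph ι}

/-- closed under paths -/
def PathConvex (T : SimpleGraph ι) (S : Set ι) : Prop :=
  ∀ a b, a ∈ S → b ∈ S → ∀ P : T.Walk a b, P.IsPath → ∀ c ∈ P.support, c ∈ S

lemma PathConvex.inter {S S' : Set ι} (h : PathConvex T S) (h' : PathConvex T S') :
    PathConvex T (S ∩ S') :=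
  fun a b ha hb P hP c hc => ⟨h a b ha.1 hb.1 P hP c hc, h' a b ha.2 hb.2 P hP c hc⟩

/-- walk-connected sets in trees are path convex -/
lemma pathConvex_of_walks (hT : T.IsTree) {S : Set ι}
    (h : ∀ a b, a ∈ S → b ∈ S → ∃ Q : T.Walk a b, ∀ c ∈ Q.support, c ∈ S) :
    PathConvex T S := by
  classical
  intro a b ha hb P hP c hc
  obtain ⟨Q, hQ⟩ := h a b ha hb
  have h1 : (⟨P, hP⟩ : T.Path a b) = Q.toPath := (hT.isAcyclic.subsingleton_path _ _).elim _ _
  have h2 : P = Q.toPath.1 := congrArg Subtype.val h1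
  rw [h2] at hc
  exact hQ c (Q.support_toPath_subset_support hc)

lemma adj_step {S S' : Set ι} (hS : PathConvex T S) (hS' : PathConvex T S')
    (hT : T.IsTree) {a x y : ι} (ha : a ∈ S ∩ S') (hx : x ∈ S) (hy : y ∈ S') (hxy : T.Adj x y) :
    x ∈ S' ∨ y ∈ S := by
  classical
  obtain ⟨P⟩ := hT.connected.preconnected y a
  by_cases hxs : x ∈ (P.toPath : T.Walk y a).support
  · left
    exact hS' y a hy ha.2 _ P.toPath.2 x hxs
  · right
    have hpath : (Walk.cons hxy (P.toPath : T.Walk y a)).IsPath := by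
      rw [Walk.cons_isPath_iff]
      exact ⟨P.toPath.2, hxs⟩
    exact hS x a hx ha.1 _ hpath y (by simp)

lemma exists_mem_inter {S S' : Set ι} (hS : PathConvex T S) (hS' : PathConvex T S')
    (hT : T.IsTree) {a : ι} (ha : a ∈ S ∩ S') :
    ∀ {c b : ι} (R : T.Walk c b), c ∈ S → b ∈ S' → (∀ z ∈ R.support, z ∈ S ∨ z ∈ S') →
      ∃ z ∈ R.support, z ∈ S ∧ z ∈ S'
  | _, _, Walk.nil, hc, hb, _ => ⟨_, by simp, hc, hb⟩
  | c, b, Walk.cons (v := z) h R, hc, hb, hR => by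
    by_cases hz : z ∈ S
    · obtain ⟨y, hy, hy'⟩ := exists_mem_inter hS hS' hT ha R hz hb
        (fun w hw => hR w (by simp [hw]))
      exact ⟨y, by simp [hy], hy'⟩
    · have hz' : z ∈ S' := (hR z (by simp)).resolve_left hz
      rcases adj_step hS hS' hT ha hc hz' h with h1 | h1
      · exact ⟨c, by simp, hc, h1⟩
      · exact absurd h1 hz

lemma helly_three (hT : T.IsTree) {S1 S2 S3 : Set ι} (h1 : PathConvex T S1)
    (h2 : PathConvex T S2) (h3 : PathConvex T S3) (h12 : (S1 ∩ S2).Nonempty)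
    (h13 : (S1 ∩ S3).Nonempty) (h23 : (S2 ∩ S3).Nonempty) : (S1 ∩ (S2 ∩ S3)).Nonempty := by
  classical
  obtain ⟨c, hc1, hc2⟩ := h12
  obtain ⟨b, hb1, hb3⟩ := h13
  obtain ⟨a, ha2, ha3⟩ := h23
  obtain ⟨Q⟩ := hT.connected.preconnected c a
  obtain ⟨P⟩ := hT.connected.preconnected a b
  let R : T.Walk c b := ((Q.toPath : T.Walk c a).append (P.toPath : T.Walk a b)).toPath
  have hR : ∀ z ∈ R.support, z ∈ S2 ∨ z ∈ S3 := by
    intro z hz
    have := Walk.support_toPath_subset_support _ hz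
    rw [Walk.mem_support_append_iff] at this
    rcases this with h | h
    · left; exact h2 c a hc2 ha2 _ Q.toPath.2 z h
    · right; exact h3 a b ha3 hb3 _ P.toPath.2 z h
  obtain ⟨z, hz, hz'⟩ := exists_mem_inter h2 h3 hT ⟨ha2, ha3⟩ R hc2 hb3 hR
  refine ⟨z, h1 c b hc1 hb1 R ?_ z hz, hz'⟩
  exact ((Q.toPath : T.Walk c a).append (P.toPath : T.Walk a b)).toPath.2

lemma helly (hT : T.IsTree) {κ : Type} (s : Finset κ) (hs : s.Nonempty) :
    ∀ (S : κ → Set ι), (∀ i ∈ s, PathConvex T (S i)) →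
      (∀ i ∈ s, ∀ j ∈ s, (S i ∩ S j).Nonempty) → ∃ t, ∀ i ∈ s, t ∈ S i := by
  classical
  induction hs using Finset.Nonempty.cons_induction with
  | singleton a =>
    intro S _ hp
    obtain ⟨t, ht, _⟩ := hp a (by simp) a (by simp)
    exact ⟨t, by simpa using ht⟩
  | cons a s ha hs ih =>
    intro S hc hp
    obtain ⟨t, ht⟩ := ih (fun i => S i ∩ S a) (fun i hi => (hc i (by simp [hi])).inter
      (hc a (by simp))) (fun i hi j hj => by
        have h := helly_three hT (hc a (by simp)) (hc i (by simp [hi])) (hc j (by simp [hj]))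
          (hp a (by simp) i (by simp [hi])) (hp a (by simp) j (by simp [hj]))
          (hp i (by simp [hi]) j (by simp [hj]))
        obtain ⟨z, hz1, hz2, hz3⟩ := h
        exact ⟨z, ⟨hz2, hz1⟩, ⟨hz3, hz1⟩⟩)
    refine ⟨t, fun i hi => ?_⟩
    rw [Finset.mem_cons] at hi
    rcases hi with rfl | hi
    · obtain ⟨j, hj⟩ := hs
      exact (ht j hj).2
    · exact (ht i hi).1

end Helly

section BrambleSec

variable {W : Type} {G : SimpleGraph W}

/-- connected inside `U` -/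
def ConnIn (G : SimpleGraph W) (U : Set W) : Prop :=
  ∀ a b, a ∈ U → b ∈ U → ∃ Q : G.Walk a b, ∀ c ∈ Q.support, c ∈ U

lemma walk_of_induce {ι : Type} {T : SimpleGraph ι} {S : Set ι} :
    ∀ {a b : S} (_ : (T.induce S).Walk a b), ∃ R : T.Walk (a : ι) (b : ι), ∀ s ∈ R.support, s ∈ S
  | a, _, Walk.nil => ⟨Walk.nil, fun s hs => by
      rw [Walk.support_nil, List.mem_singleton] at hs
      rw [hs]; exact a.2⟩
  | a, b, Walk.cons (v := c) h Q => by
    obtain ⟨R, hR⟩ := walk_of_induce Q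
    refine ⟨Walk.cons (v := (c : ι)) (by simpa using h) R, ?_⟩
    intro s hs
    rw [Walk.support_cons, List.mem_cons] at hs
    rcases hs with rfl | hs
    · exact a.2
    · exact hR s hs

lemma walk_in_subtree {k : ℕ} (D : TreeDecomposition G k) (u : W) {t t' : D.ι}
    (ht : u ∈ D.bag t) (ht' : u ∈ D.bag t') :
    ∃ Q : D.T.Walk t t', ∀ s ∈ Q.support, u ∈ D.bag s := by
  obtain ⟨Q⟩ := (D.connected u).preconnected ⟨t, ht⟩ ⟨t', ht'⟩
  exact walk_of_induce Q

lemma walk_in_union {k : ℕ} (D : TreeDecomposition G k) (U : Set W) :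
    ∀ {u u' : W} (w : G.Walk u u'), (∀ z ∈ w.support, z ∈ U) → ∀ {t t' : D.ι},
      u ∈ D.bag t → u' ∈ D.bag t' →
      ∃ Q : D.T.Walk t t', ∀ s ∈ Q.support, ∃ z ∈ U, z ∈ D.bag s
  | u, _, Walk.nil, hw, t, t', ht, ht' => by
    obtain ⟨Q, hQ⟩ := walk_in_subtree D u ht ht'
    exact ⟨Q, fun s hs => ⟨u, hw u (by simp), hQ s hs⟩⟩
  | u, u', Walk.cons (v := v) h w, hw, t, t', ht, ht' => by
    obtain ⟨i, hi1, hi2⟩ := D.adj_bag u v h
    obtain ⟨Q, hQ⟩ := walk_in_subtree D u ht hi1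
    obtain ⟨Q', hQ'⟩ := walk_in_union D U w (fun z hz => hw z (by simp [hz])) hi2 ht'
    refine ⟨Q.append Q', ?_⟩
    intro s hs
    rw [Walk.mem_support_append_iff] at hs
    rcases hs with hs | hs
    · exact ⟨u, hw u (by simp), hQ s hs⟩
    · exact hQ' s hs

/-- A finite bramble is hit by a bag. -/
theorem exists_bag_hitting {k : ℕ} (D : TreeDecomposition G k) {κ : Type} (s : Finset κ)
    (hs : s.Nonempty) (U : κ → Set W) (hconn : ∀ i ∈ s, ConnIn G (U i))
    (htouch : ∀ i ∈ s, ∀ j ∈ s, ∃ t, (∃ u ∈ U i, u ∈ D.bag t) ∧ (∃ u ∈ U j, u ∈ D.bag t)) :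
    ∃ t, ∀ i ∈ s, ∃ u ∈ U i, u ∈ D.bag t := by
  apply helly D.isTree s hs (fun i => {t | ∃ u ∈ U i, u ∈ D.bag t})
  · intro i hi
    apply pathConvex_of_walks D.isTree
    rintro t t' ⟨u, hu, hut⟩ ⟨u', hu', hut'⟩
    obtain ⟨w, hw⟩ := hconn i hi u u' hu hu'
    exact walk_in_union D (U i) w hw hut hut'
  · intro i hi j hj
    obtain ⟨t, h1, h2⟩ := htouch i hi j hj
    exact ⟨t, h1, h2⟩

end BrambleSec

end H860R3.Lamp
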