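import Mathlib

/-!
# Clusters and tree decompositions

If the finite cuts of a graph `H` are detected by closed walks of length at most `L` and `H` has a
labelling of its vertices by integers (blocks) which changes by at most one along walks of length
at most `L`, then the graph of `L`-clusters of the blocks is a forest.
-/

namespace H860R3.Lamp

open SimpleGraph

variable {W : Type} {H : SimpleGraph W}

open Classical in
/-- The number of times the walk `w` traverses an edge of the set `F`. -/
noncomputable def crossings {W : Type} {H : SimpleGraph W} {u v : W} (w : H.Walk u v)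
    (F : Set (Sym2 W)) : ℕ :=
  w.edges.countP (fun e => decide (e ∈ F))

/-- `ShortCyclesDetectCuts H L`: every finite set `F` of edges of `H` which is traversed an even
number of times by every closed walk of `H` of length at most `L` is traversed an even number of
times by every closed walk of `H`, that is, `F` is a cut of `H`. -/
def ShortCyclesDetectCuts {W : Type} (H : SimpleGraph W) (L : ℕ) : Prop :=
  ∀ F : Set (Sym2 W), F.Finite → F ⊆ H.edgeSet →
    (∀ (v : W) (c : H.Walk v v), c.length ≤ L → Even (crossings c F)) →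
    ∀ (v : W) (w : H.Walk v v), Even (crossings w F)

/-- A tree decomposition of `H` in which every bag has at most `k + 1` vertices. -/
structure TreeDecomposition {W : Type} (H : SimpleGraph W) (k : ℕ) where
  /-- the index set of the bags -/
  ι : Type
  /-- the tree -/
  T : SimpleGraph ι
  isTree : T.IsTree
  /-- the bags -/
  bag : ι → Set W
  mem_bag : ∀ v, ∃ i, v ∈ bag i
  adj_bag : ∀ u v, H.Adj u v → ∃ i, u ∈ bag i ∧ v ∈ bag i
  connected : ∀ v, (T.induce {i | v ∈ bag i}).Connected
  finite : ∀ i, (bag i).Finite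
  card_le : ∀ i, (bag i).ncard ≤ k + 1

/-- The treewidth of `H` is finite. -/
def BoundedTreewidth {W : Type} (H : SimpleGraph W) : Prop :=
  ∃ k : ℕ, Nonempty (TreeDecomposition H k)

section Sums

/-- the sum of `f` over the edges of a walk -/
def esum {u v : W} (f : Sym2 W → ZMod 2) (w : H.Walk u v) : ZMod 2 := (w.edges.map f).sum

open Classical in
lemma esum_indicator {u v : W} (F : Set (Sym2 W)) (w : H.Walk u v) :
    esum (fun e => if e ∈ F then 1 else 0) w = (crossings w F : ZMod 2) := by
  unfold esum crossings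
  induction w.edges with
  | nil => simp
  | cons a l ih =>
    rw [List.map_cons, List.sum_cons, ih, List.countP_cons]
    by_cases h : a ∈ F
    · simp [h, add_comm]
    · simp [h]

@[simp] lemma esum_nil {u : W} (f : Sym2 W → ZMod 2) : esum f (Walk.nil : H.Walk u u) = 0 := by
  simp [esum]

@[simp] lemma esum_cons {u v w : W} (f : Sym2 W → ZMod 2) (h : H.Adj u v) (p : H.Walk v w) :
    esum f (Walk.cons h p) = f s(u, v) + esum f p := by
  simp [esum]

lemma esum_append {u v w : W} (f : Sym2 W → ZMod 2) (p : H.Walk u v) (q : H.Walk v w) :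
    esum f (p.append q) = esum f p + esum f q := by
  simp [esum, Walk.edges_append]

lemma esum_reverse {u v : W} (f : Sym2 W → ZMod 2) (p : H.Walk u v) :
    esum f p.reverse = esum f p := by
  simp only [esum, Walk.edges_reverse, List.map_reverse]
  exact List.sum_reverse _

lemma esum_eq_zero {u v : W} (f : Sym2 W → ZMod 2) (p : H.Walk u v)
    (h : ∀ e ∈ p.edges, f e = 0) : esum f p = 0 := by
  unfold esum
  apply List.sum_eq_zero
  intro x hx
  obtain ⟨e, he, rfl⟩ := List.mem_map.1 hx
  exact h e he

/-- telescoping -/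
lemma esum_telescope (f : Sym2 W → ZMod 2) (g : W → ZMod 2) :
    ∀ {u v : W} (p : H.Walk u v),
      (∀ x y, s(x, y) ∈ p.edges → f s(x, y) = g x + g y) → esum f p = g u + g v
  | _, _, Walk.nil, _ => by simp [CharTwo.add_self_eq_zero]
  | u, v, Walk.cons (v := z) h p, hp => by
    have ih := esum_telescope f g p (fun x y hxy => hp x y (by simp [hxy]))
    rw [esum_cons, ih, hp u z (by simp)]
    have : g z + g z = 0 := CharTwo.add_self_eq_zero _
    linear_combination this

end Sums

section Clusters

variable (H) (L : ℕ) (b : W → ℤ)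

/-- the short-walk relation inside a block -/
def ShortRel (x y : W) : Prop := b x = b y ∧ ∃ w : H.Walk x y, w.length ≤ L

/-- clusters -/
def clSetoid : Setoid W := Relation.EqvGen.setoid (ShortRel H L b)

/-- the type of clusters -/
def Cl : Type := Quotient (clSetoid H L b)

/-- the cluster of a vertex -/
def cl (x : W) : Cl H L b := Quotient.mk (clSetoid H L b) x

variable {H L b}

lemma cl_eq_of_rel {x y : W} (h : ShortRel H L b x y) : cl H L b x = cl H L b y :=
  Quotient.sound (Relation.EqvGen.rel _ _ h)

lemma eqvGen_of_cl_eq {x y : W} (h : cl H L b x = cl H L b y) :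
    Relation.EqvGen (ShortRel H L b) x y := Quotient.exact h

lemma block_eq_of_cl_eq {x y : W} (h : cl H L b x = cl H L b y) : b x = b y := by
  have h' := eqvGen_of_cl_eq h
  clear h
  induction h' with
  | rel x y h => exact h.1
  | refl x => rfl
  | symm x y _ ih => exact ih.symm
  | trans x y z _ _ ih1 ih2 => exact ih1.trans ih2

variable (H L b) in
/-- the cluster graph -/
def clGraph : SimpleGraph (Cl H L b) where
  Adj A B := A ≠ B ∧ ∃ u v, H.Adj u v ∧ cl H L b u = A ∧ cl H L b v = B
  symm := ⟨by
    rintro A B ⟨h, u, v, huv, hu, hv⟩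
    exact ⟨h.symm, v, u, huv.symm, hv, hu⟩⟩
  loopless := ⟨fun A h => h.1 rfl⟩

open Classical in
variable (H L b) in
/-- the edges of `H` between two clusters -/
noncomputable def crossing (A B : Cl H L b) (e : Sym2 W) : ZMod 2 :=
  if Sym2.map (cl H L b) e = s(A, B) then 1 else 0

lemma exists_short_walk {u v : W} (w : H.Walk u v) {x y : W} (hx : x ∈ w.support)
    (hy : y ∈ w.support) : ∃ q : H.Walk x y, q.length ≤ w.length := by
  classical
  have key : ∀ {u v : W} (w : H.Walk u v) {x y : W} (hx : x ∈ w.support)
      (hy : y ∈ (w.dropUntil x hx).support), ∃ q : H.Walk x y, q.length ≤ w.length := by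
    intro u v w x y hx hy
    refine ⟨(w.dropUntil x hx).takeUntil y hy, ?_⟩
    exact ((w.dropUntil x hx).length_takeUntil_le_length hy).trans (w.length_dropUntil_le_length hx)
  have h := (w.take_spec hx)
  have hy' : y ∈ ((w.takeUntil x hx).append (w.dropUntil x hx)).support := by rw [h]; exact hy
  rw [Walk.mem_support_append_iff] at hy'
  rcases hy' with hy' | hy'
  · -- y before x
    have hlen : (w.takeUntil x hx).length ≤ w.length := w.length_takeUntil_le_length hx
    refine ⟨(((w.takeUntil x hx).dropUntil y hy')).reverse, ?_⟩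
    rw [Walk.length_reverse]
    exact ((w.takeUntil x hx).length_dropUntil_le_length hy').trans hlen
  · exact key w hx hy'

/-- Short walks with both ends in the same block cross every pair of clusters evenly. -/
lemma esum_crossing_short (hL : 1 ≤ L)
    (hb : ∀ x y (w : H.Walk x y), w.length ≤ L → |b x - b y| ≤ 1)
    {A B : Cl H L b} (hAB : A ≠ B) {x y : W} (w : H.Walk x y) (hw : w.length ≤ L)
    (hxy : b x = b y) : esum (crossing H L b A B) w = 0 := by
  classical
  by_cases h : ∃ e ∈ w.edges, Sym2.map (cl H L b) e = s(A, B)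
  · -- find p, q with cl p = A, cl q = B
    obtain ⟨p, q, hpq, hp, hq⟩ : ∃ p q, s(p, q) ∈ w.edges ∧ cl H L b p = A ∧ cl H L b q = B := by
      obtain ⟨e, he, hmap⟩ := h
      induction e using Sym2.ind with
      | _ p q =>
        rw [Sym2.map_mk, Sym2.eq_iff] at hmap
        rcases hmap with ⟨h1, h2⟩ | ⟨h1, h2⟩
        · exact ⟨p, q, he, h1, h2⟩
        · exact ⟨q, p, by rwa [Sym2.eq_swap], h2, h1⟩
    have hadj : H.Adj p q := w.adj_of_mem_edges hpq
    have hps : p ∈ w.support := w.fst_mem_support_of_mem_edges hpq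
    have hqs : q ∈ w.support := w.snd_mem_support_of_mem_edges hpq
    have hne : b p ≠ b q := by
      intro hbpq
      apply hAB
      rw [← hp, ← hq]
      apply cl_eq_of_rel
      refine ⟨hbpq, Walk.cons hadj Walk.nil, ?_⟩
      simpa using hL
    have hsame : ∀ z z', z ∈ w.support → z' ∈ w.support → b z = b z' →
        cl H L b z = cl H L b z' := by
      intro z z' hz hz' hbz
      apply cl_eq_of_rel
      obtain ⟨r, hr⟩ := exists_short_walk w hz hz'
      exact ⟨hbz, r, hr.trans hw⟩
    have hnear : ∀ z z', z ∈ w.support → z' ∈ w.support → |b z - b z'| ≤ 1 := by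
      intro z z' hz hz'
      obtain ⟨r, hr⟩ := exists_short_walk w hz hz'
      exact hb z z' r (hr.trans hw)
    have hcl : ∀ z ∈ w.support, cl H L b z = A ∨ cl H L b z = B := by
      intro z hz
      have h1 := hnear z p hz hps
      have h2 := hnear z q hz hqs
      have h3 := hnear p q hps hqs
      rw [abs_le] at h1 h2 h3
      have : b z = b p ∨ b z = b q := by omega
      rcases this with h | h
      · left; rw [← hp]; exact hsame z p hz hps h
      · right; rw [← hq]; exact hsame z q hz hqs h
    rw [esum_telescope (crossing H L b A B) (fun z => if cl H L b z = A then 1 else 0) w ?_]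
    · have hx : x ∈ w.support := w.start_mem_support
      have hy : y ∈ w.support := w.end_mem_support
      rw [hsame x y hx hy hxy]
      exact CharTwo.add_self_eq_zero _
    · intro z z' hzz
      have hz : z ∈ w.support := w.fst_mem_support_of_mem_edges hzz
      have hz' : z' ∈ w.support := w.snd_mem_support_of_mem_edges hzz
      unfold crossing
      simp only [Sym2.map_mk, Sym2.eq_iff]
      rcases hcl z hz with h1 | h1 <;> rcases hcl z' hz' with h2 | h2
      · simp [h1, h2, hAB, CharTwo.add_self_eq_zero]
      · simp [h1, h2, hAB.symm]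
      · simp [h1, h2, hAB.symm]
      · simp [h1, h2, hAB.symm]
  · apply esum_eq_zero
    intro e he
    unfold crossing
    rw [if_neg]
    intro hc
    exact h ⟨e, he, hc⟩

/-- Inside a cluster one can move with even crossing numbers. -/
lemma exists_walk_cluster (hL : 1 ≤ L)
    (hb : ∀ x y (w : H.Walk x y), w.length ≤ L → |b x - b y| ≤ 1)
    {A B : Cl H L b} (hAB : A ≠ B) {x y : W} (h : cl H L b x = cl H L b y) :
    ∃ w : H.Walk x y, esum (crossing H L b A B) w = 0 := by
  have := eqvGen_of_cl_eq h
  clear h
  induction this with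
  | rel x y h =>
    obtain ⟨hbxy, w, hw⟩ := h
    exact ⟨w, esum_crossing_short hL hb hAB w hw hbxy⟩
  | refl x => exact ⟨Walk.nil, by simp⟩
  | symm x y _ ih =>
    obtain ⟨w, hw⟩ := ih
    exact ⟨w.reverse, by rw [esum_reverse, hw]⟩
  | trans x y z _ _ ih1 ih2 =>
    obtain ⟨w1, hw1⟩ := ih1
    obtain ⟨w2, hw2⟩ := ih2
    exact ⟨w1.append w2, by rw [esum_append, hw1, hw2, add_zero]⟩

lemma exists_lift (hL : 1 ≤ L)
    (hb : ∀ x y (w : H.Walk x y), w.length ≤ L → |b x - b y| ≤ 1)
    {A B : Cl H L b} (hAB : A ≠ B) {C D : Cl H L b}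
    (P : ((clGraph H L b).deleteEdges {s(A, B)}).Walk C D) :
    ∀ {u v : W}, cl H L b u = C → cl H L b v = D →
      ∃ w : H.Walk u v, esum (crossing H L b A B) w = 0 := by
  classical
  induction P with
  | nil =>
    intro u v hu hv
    exact exists_walk_cluster hL hb hAB (hu.trans hv.symm)
  | @cons C C' D h P ih =>
    intro u v hu hv
    rw [deleteEdges_adj] at h
    obtain ⟨⟨hne, p, q, hpq, hp, hq⟩, h2⟩ := h
    have hs : s(C, C') ≠ s(A, B) := by
      intro hh
      exact h2 (by simpa using hh)
    obtain ⟨w1, hw1⟩ := exists_walk_cluster hL hb hAB (hu.trans hp.symm)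
    obtain ⟨w2, hw2⟩ := ih hq hv
    refine ⟨w1.append (Walk.cons hpq w2), ?_⟩
    rw [esum_append, esum_cons, hw1, hw2]
    unfold crossing
    rw [Sym2.map_mk, hp, hq, if_neg hs]
    simp

/-- The cluster graph is a forest. -/
theorem clGraph_isAcyclic (hL : 1 ≤ L)
    (hb : ∀ x y (w : H.Walk x y), w.length ≤ L → |b x - b y| ≤ 1)
    (hcut : ShortCyclesDetectCuts H L)
    (hfin : ∀ a : W, {v | cl H L b v = cl H L b a}.Finite) : (clGraph H L b).IsAcyclic := by
  classical
  rw [isAcyclic_iff_forall_adj_isBridge]
  intro A B hAdj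
  rw [isBridge_iff]
  rintro ⟨P⟩
  have hAB : A ≠ B := hAdj.1
  obtain ⟨-, u, v, huv, hu, hv⟩ := hAdj
  obtain ⟨w, hw⟩ := exists_lift hL hb hAB P hu hv
  -- the set of edges between the two clusters
  let F : Set (Sym2 W) := {e | e ∈ H.edgeSet ∧ Sym2.map (cl H L b) e = s(A, B)}
  have hF : ∀ {x y : W} (q : H.Walk x y),
      esum (crossing H L b A B) q = (crossings q F : ZMod 2) := by
    intro x y q
    rw [← esum_indicator]
    unfold esum
    congr 1
    apply List.map_congr_left
    intro e he
    have heH : e ∈ H.edgeSet := q.edges_subset_edgeSet he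
    unfold crossing
    simp only [F, Set.mem_setOf_eq, heH, true_and]
  have hFfin : F.Finite := by
    have h1 := (hfin u).prod (hfin v)
    refine (h1.image (fun p : W × W => s(p.1, p.2))).subset ?_
    rintro e ⟨_, hmap⟩
    induction e using Sym2.ind with
    | _ p q =>
      rw [Sym2.map_mk, Sym2.eq_iff] at hmap
      rcases hmap with ⟨h1, h2⟩ | ⟨h1, h2⟩
      · exact ⟨(p, q), ⟨by simp [h1, hu], by simp [h2, hv]⟩, rfl⟩
      · exact ⟨(q, p), ⟨by simp [h2, hu], by simp [h1, hv]⟩, Sym2.eq_swap⟩
  have heven := hcut F hFfin (fun e he => he.1) (by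
    intro z c hc
    have h0 := esum_crossing_short hL hb hAB c hc rfl
    rw [hF] at h0
    exact (ZMod.natCast_eq_zero_iff_even).1 h0) v (Walk.cons huv.symm w)
  have h0 : esum (crossing H L b A B) (Walk.cons huv.symm w) = 0 := by
    rw [hF]
    exact (ZMod.natCast_eq_zero_iff_even).2 heven
  rw [esum_cons, hw] at h0
  unfold crossing at h0
  rw [Sym2.map_mk, hu, hv, if_pos (Sym2.eq_swap)] at h0
  simp at h0

/-- Tree decomposition from the cluster forest. -/
theorem boundedTreewidth_of_clusters (hL : 1 ≤ L)
    (hb : ∀ x y (w : H.Walk x y), w.length ≤ L → |b x - b y| ≤ 1)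
    (hcut : ShortCyclesDetectCuts H L) (k : ℕ)
    (hfin : ∀ a : W, {v | cl H L b v = cl H L b a ∨
      (clGraph H L b).Adj (cl H L b a) (cl H L b v)}.Finite)
    (hcard : ∀ a : W, {v | cl H L b v = cl H L b a ∨
      (clGraph H L b).Adj (cl H L b a) (cl H L b v)}.ncard ≤ k + 1) :
    BoundedTreewidth H := by
  classical
  rcases isEmpty_or_nonempty W with hW | hW
  · refine ⟨0, ⟨⟨Unit, ⊥, ?_, fun _ => ∅, ?_, ?_, ?_, ?_, ?_⟩⟩⟩
    · exact IsTree.of_subsingleton
    · intro v; exact (hW.false v).elim
    · intro v; exact (hW.false v).elim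
    · intro v; exact (hW.false v).elim
    · intro _; exact Set.finite_empty
    · intro _; simp
  · have hacyc := clGraph_isAcyclic hL hb hcut
      (fun a => (hfin a).subset (fun v hv => Or.inl hv))
    have : Nonempty (Cl H L b) := ⟨cl H L b hW.some⟩
    obtain ⟨T, hT1, -, hT⟩ := (connected_top (V := Cl H L b)).exists_isTree_le_of_le_of_isAcyclic
      (le_top : clGraph H L b ≤ ⊤) hacyc
    refine ⟨k, ⟨⟨Cl H L b, T, hT, fun t => {v | cl H L b v = t ∨ (clGraph H L b).Adj t (cl H L b v)},
      ?_, ?_, ?_, ?_, ?_⟩⟩⟩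
    · intro v; exact ⟨cl H L b v, Or.inl rfl⟩
    · intro u v huv
      refine ⟨cl H L b u, Or.inl rfl, ?_⟩
      by_cases h : cl H L b v = cl H L b u
      · exact Or.inl h
      · exact Or.inr ⟨fun h' => h h'.symm, u, v, huv, rfl, rfl⟩
    · intro v
      have hc : cl H L b v ∈ {i | v ∈ {v | cl H L b v = i ∨ (clGraph H L b).Adj i (cl H L b v)}} :=
        Or.inl rfl
      rw [connected_iff_exists_forall_reachable]
      refine ⟨⟨cl H L b v, hc⟩, ?_⟩
      rintro ⟨i, hi⟩
      rcases hi with hi | hi
      · have : (⟨cl H L b v, hc⟩ : {i | v ∈ {v | cl H L b v = i ∨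
            (clGraph H L b).Adj i (cl H L b v)}}) = ⟨i, Or.inl hi⟩ := Subtype.ext hi
        rw [this]
      · apply Adj.reachable
        simp only [comap_adj, Function.Embedding.subtype_apply]
        exact hT1 hi.symm
    · intro t
      obtain ⟨a, rfl⟩ := Quotient.exists_rep t
      exact hfin a
    · intro t
      obtain ⟨a, rfl⟩ := Quotient.exists_rep t
      exact hcard a

end Clusters

end H860R3.Lamp
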