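import Pool.Agent.H860R3.Lamp.Facial

/-!
# Planar graphs in which every edge lies on two peripheral cycles
-/

namespace H860R3.Lamp

open SimpleGraph

variable {W : Type} {H : SimpleGraph W}

open Classical in
/-- Mac Lane's criterion: `H` is planar if the cycle space of every finite subgraph (given by its
finite edge set `K`) is spanned by finitely many of its elements such that every edge belongs to at
most two of them. -/
def MacLanePlanar {W : Type} (H : SimpleGraph W) : Prop :=
  ∀ K : Finset (Sym2 W), (∀ e ∈ K, e ∈ H.edgeSet) →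
    ∃ (n : ℕ) (B : Fin n → Sym2 W → ZMod 2),
      (∀ i, IsCycleVector K (B i)) ∧
      (∀ e, (Finset.univ.filter (fun i => B i e ≠ 0)).card ≤ 2) ∧
      (∀ z, IsCycleVector K z → ∃ J : Finset (Fin n), z = ∑ j ∈ J, B j)

/-- The automorphism group of `H` has finitely many orbits on vertices. -/
def QuasiTransitive {W : Type} (H : SimpleGraph W) : Prop :=
  ∃ s : Set W, s.Finite ∧ ∀ v, ∃ u ∈ s, ∃ φ : H ≃g H, φ v = u

lemma IsCycleVector.sum {K : Finset (Sym2 W)} {ι : Type} (J : Finset ι)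
    {B : ι → Sym2 W → ZMod 2} (hB : ∀ i, IsCycleVector K (B i)) :
    IsCycleVector K (∑ j ∈ J, B j) := by
  classical
  constructor
  · intro e he
    rw [Finset.sum_apply]
    exact Finset.sum_eq_zero (fun j _ => (hB j).1 e he)
  · intro v
    simp only [Finset.sum_apply]
    rw [Finset.sum_comm]
    exact Finset.sum_eq_zero (fun j _ => (hB j).2 v)

/-- face family from Mac Lane's basis -/
lemma exists_faceFamily (hpl : MacLanePlanar H) (K : Finset (Sym2 W))
    (hK : ∀ e ∈ K, e ∈ H.edgeSet) :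
    ∃ (n : ℕ) (C : Option (Fin n) → Sym2 W → ZMod 2), FaceFamily K (Option (Fin n)) C := by
  classical
  obtain ⟨n, B, hB1, hB2, hB3⟩ := hpl K hK
  refine ⟨n, fun o => o.elim (∑ i, B i) B, ?_, ?_, ?_, ?_⟩
  · rintro (_ | i)
    · exact IsCycleVector.sum _ hB1
    · exact hB1 i
  · -- at most two
    have hthree : ∀ e, ∀ i j k : Fin n, B i e ≠ 0 → B j e ≠ 0 → B k e ≠ 0 →
        i = j ∨ j = k ∨ i = k := by
      intro e i j k hi hj hk
      by_contra hcon
      push Not at hcon
      obtain ⟨h1, h2, h3⟩ := hcon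
      have hsub : ({i, j, k} : Finset (Fin n)) ⊆ Finset.univ.filter (fun i => B i e ≠ 0) := by
        intro x hx
        simp only [Finset.mem_insert, Finset.mem_singleton] at hx
        rw [Finset.mem_filter]
        rcases hx with rfl | rfl | rfl
        · exact ⟨Finset.mem_univ _, hi⟩
        · exact ⟨Finset.mem_univ _, hj⟩
        · exact ⟨Finset.mem_univ _, hk⟩
      have hcard : ({i, j, k} : Finset (Fin n)).card = 3 := by
        rw [Finset.card_eq_three]
        exact ⟨i, j, k, h1, h3, h2, rfl⟩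
      have := Finset.card_le_card hsub
      have := hB2 e
      omega
    have hnone : ∀ e, ∀ j k : Fin n, j ≠ k → B j e ≠ 0 → B k e ≠ 0 → (∑ i, B i) e = 0 := by
      intro e j k hjk hj hk
      rw [Finset.sum_apply]
      have : ∑ i ∈ ({j, k} : Finset (Fin n)), B i e = ∑ i, B i e := by
        apply Finset.sum_subset (Finset.subset_univ _)
        intro x _ hx
        by_contra hxe
        simp only [Finset.mem_insert, Finset.mem_singleton, not_or] at hx
        rcases hthree e x j k hxe hj hk with h | h | h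
        · exact hx.1 h
        · exact hjk h
        · exact hx.2 h
      rw [← this, Finset.sum_pair hjk, zmod_ne_zero_eq_one hj, zmod_ne_zero_eq_one hk]
      decide
    rintro e (_ | i) (_ | j) (_ | k) hi hj hk
    · exact Or.inl rfl
    · exact Or.inl rfl
    · exact Or.inr (Or.inr rfl)
    · by_cases h : j = k
      · exact Or.inr (Or.inl (congrArg some h))
      · exact absurd (hnone e j k h hj hk) hi
    · exact Or.inr (Or.inl rfl)
    · by_cases h : i = k
      · exact Or.inr (Or.inr (congrArg some h))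
      · exact absurd (hnone e i k h hi hk) hj
    · by_cases h : i = j
      · exact Or.inl (congrArg some h)
      · exact absurd (hnone e i j h hi hj) hk
    · rcases hthree e i j k hi hj hk with h | h | h
      · exact Or.inl (congrArg some h)
      · exact Or.inr (Or.inl (congrArg some h))
      · exact Or.inr (Or.inr (congrArg some h))
  · rw [Fintype.sum_option]
    funext e
    simp only [Option.elim, Pi.add_apply, Pi.zero_apply]
    exact CharTwo.add_self_eq_zero _
  · intro z hz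
    obtain ⟨J, hJ⟩ := hB3 z hz
    refine ⟨J.map ⟨some, Option.some_injective _⟩, ?_⟩
    rw [Finset.sum_map, hJ]
    rfl

/-- A finite core and a large finite subgraph around it in which the given peripheral cycles are
faces. -/
theorem exists_core (hfin : ∀ v, (H.neighborSet v).Finite)
    (h2c : ∀ x a b : W, a ≠ x → b ≠ x → ∃ w : H.Walk a b, x ∉ w.support)
    (hpl : MacLanePlanar H) {κ : Type} [Finite κ] (P : κ → PeripheralCycle H) (U0 : Set W)
    (hU0 : U0.Finite) (E0 : Finset (Sym2 W)) (hE0 : ∀ e ∈ E0, e ∈ H.edgeSet) :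
    ∃ (K : Finset (Sym2 W)) (n : ℕ) (C : Option (Fin n) → Sym2 W → ZMod 2) (U : Set W),
      (∀ e ∈ K, e ∈ H.edgeSet) ∧ FaceFamily K (Option (Fin n)) C ∧ U0 ⊆ U ∧ E0 ⊆ K ∧
      (∀ j, ∀ x ∈ (P j).c.support, x ∈ U) ∧ (∀ y ∈ U, ∀ b, H.Adj y b → s(y, b) ∈ K) ∧
      ∀ j, ∀ e0 ∈ (P j).c.edges, ∃ i, C i e0 ≠ 0 ∧
        ∀ e ∈ K, (∃ u ∈ U, u ∈ e) → C i e = wvec (P j).c e := by
  classical
  let U : Set W := U0 ∪ ⋃ j, ({x | x ∈ (P j).c.support} ∪
    ⋃ x ∈ {x | x ∈ (P j).c.support}, H.neighborSet x)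
  have hUfin : U.Finite := by
    apply hU0.union
    apply Set.finite_iUnion
    intro j
    have hs : {x | x ∈ (P j).c.support}.Finite := (P j).c.support.finite_toSet
    exact hs.union (hs.biUnion (fun x _ => hfin x))
  have hS : ∀ (j : κ) (x y : W), ∃ S : Set W, S.Finite ∧ (x ∉ (P j).c.support →
      y ∉ (P j).c.support → ∃ w : H.Walk x y, ∀ z ∈ w.support, z ∈ S ∧ z ∉ (P j).c.support) := by
    intro j x y
    by_cases hxy : x ∉ (P j).c.support ∧ y ∉ (P j).c.support
    · obtain ⟨w, hw⟩ := (P j).nonsep x y hxy.1 hxy.2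
      exact ⟨{z | z ∈ w.support}, w.support.finite_toSet, fun _ _ => ⟨w, fun z hz => ⟨hz, hw z hz⟩⟩⟩
    · exact ⟨∅, Set.finite_empty, fun h1 h2 => absurd ⟨h1, h2⟩ hxy⟩
  choose S hSfin hSw using hS
  let U1 : Set W := U ∪ ⋃ j, ⋃ x ∈ U, ⋃ y ∈ U, S j x y
  have hU1fin : U1.Finite := by
    apply hUfin.union
    apply Set.finite_iUnion
    intro j
    exact hUfin.biUnion (fun x _ => hUfin.biUnion (fun y _ => hSfin j x y))
  have hE : ∀ y a b : W, ∃ E : Finset (Sym2 W), (∀ e ∈ E, e ∈ H.edgeSet) ∧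
      (H.Adj y a → H.Adj y b → ∃ w : H.Walk a b, y ∉ w.support ∧ ∀ e ∈ w.edges, e ∈ E) := by
    intro y a b
    by_cases hab : H.Adj y a ∧ H.Adj y b
    · obtain ⟨w, hw⟩ := h2c y a b hab.1.ne' hab.2.ne'
      exact ⟨w.edges.toFinset, fun e he => w.edges_subset_edgeSet (List.mem_toFinset.1 he),
        fun _ _ => ⟨w, hw, fun e he => List.mem_toFinset.2 he⟩⟩
    · exact ⟨∅, fun e he => absurd he (Finset.notMem_empty e),
        fun h1 h2 => absurd ⟨h1, h2⟩ hab⟩
  choose E hEH hEw using hE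
  let Ks : Set (Sym2 W) := (E0 : Set (Sym2 W)) ∪ ((⋃ y ∈ U1, (fun b => s(y, b)) '' H.neighborSet y)
    ∪ ⋃ y ∈ U1, ⋃ a ∈ H.neighborSet y, ⋃ b ∈ H.neighborSet y, (E y a b : Set (Sym2 W)))
  have hKs : Ks.Finite := by
    apply E0.finite_toSet.union
    apply Set.Finite.union
    · exact hU1fin.biUnion (fun y _ => (hfin y).image _)
    · exact hU1fin.biUnion (fun y _ => (hfin y).biUnion (fun a _ => (hfin y).biUnion
        (fun b _ => (E y a b).finite_toSet)))
  have hKmem : ∀ e, e ∈ hKs.toFinset ↔ e ∈ Ks := fun e => hKs.mem_toFinset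
  have hKH : ∀ e ∈ hKs.toFinset, e ∈ H.edgeSet := by
    intro e he
    rw [hKmem] at he
    rcases he with he | he | he
    · exact hE0 e he
    · simp only [Set.mem_iUnion] at he
      obtain ⟨y, _, b, hb, rfl⟩ := he
      exact hb
    · simp only [Set.mem_iUnion] at he
      obtain ⟨y, _, a, _, b, _, he⟩ := he
      exact hEH y a b e he
  obtain ⟨n, C, hC⟩ := exists_faceFamily hpl hKs.toFinset hKH
  have h1 : ∀ y ∈ U1, ∀ b, H.Adj y b → s(y, b) ∈ hKs.toFinset := by
    intro y hy b hb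
    rw [hKmem]
    right; left
    simp only [Set.mem_iUnion]
    exact ⟨y, hy, b, hb, rfl⟩
  have h2 : ∀ y ∈ U1, ∀ a b, H.Adj y a → H.Adj y b →
      ∃ w : H.Walk a b, y ∉ w.support ∧ ∀ e ∈ w.edges, e ∈ hKs.toFinset := by
    intro y hy a b ha hb
    obtain ⟨w, hw1, hw2⟩ := hEw y a b ha hb
    refine ⟨w, hw1, fun e he => ?_⟩
    rw [hKmem]
    right; right
    simp only [Set.mem_iUnion]
    exact ⟨y, hy, a, ha, b, hb, hw2 e he⟩
  have hUU1 : U ⊆ U1 := Set.subset_union_left
  refine ⟨hKs.toFinset, n, C, U, hKH, hC, Set.subset_union_left, ?_, ?_, ?_, ?_⟩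
  · intro e he
    rw [hKmem]
    exact Or.inl he
  · intro j x hx
    right
    exact Set.mem_iUnion.2 ⟨j, Or.inl hx⟩
  · intro y hy b hb
    exact h1 y (hUU1 hy) b hb
  · intro j
    apply exists_face hKH hC h1 h2 hUU1 (P j)
    · intro x hx y hy hxs hys
      obtain ⟨w, hw⟩ := hSw j x y hxs hys
      refine ⟨w, fun z hz => ⟨?_, (hw z hz).2⟩⟩
      right
      simp only [Set.mem_iUnion]
      exact ⟨j, x, hx, y, hy, (hw z hz).1⟩
    · intro x hx
      refine ⟨Or.inr (Set.mem_iUnion.2 ⟨j, Or.inl hx⟩), fun y hxy => ?_⟩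
      refine Or.inr (Set.mem_iUnion.2 ⟨j, Or.inr ?_⟩)
      simp only [Set.mem_iUnion]
      exact ⟨x, hx, hxy⟩

/-- distinct peripheral cycles give distinct faces -/
lemma edgeSet_eq_of_face {K : Finset (Sym2 W)} {ι : Type} {C : ι → Sym2 W → ZMod 2} {U : Set W}
    (hKU : ∀ y ∈ U, ∀ b, H.Adj y b → s(y, b) ∈ K) (P P' : PeripheralCycle H)
    (hP : ∀ x ∈ P.c.support, x ∈ U) (hP' : ∀ x ∈ P'.c.support, x ∈ U) {i : ι}
    (hi : ∀ e ∈ K, (∃ u ∈ U, u ∈ e) → C i e = wvec P.c e)
    (hi' : ∀ e ∈ K, (∃ u ∈ U, u ∈ e) → C i e = wvec P'.c e) : P.edgeSet = P'.edgeSet := by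
  have key : ∀ (P P' : PeripheralCycle H), (∀ x ∈ P.c.support, x ∈ U) →
      (∀ e ∈ K, (∃ u ∈ U, u ∈ e) → C i e = wvec P.c e) →
      (∀ e ∈ K, (∃ u ∈ U, u ∈ e) → C i e = wvec P'.c e) → P.edgeSet ⊆ P'.edgeSet := by
    intro P P' hP hi hi' e he
    have he' : e ∈ P.c.edges := he
    by_contra hne
    have hne' : e ∉ P'.c.edges := hne
    induction e using Sym2.ind with
    | _ x y =>
      have hx : x ∈ U := hP x (P.c.fst_mem_support_of_mem_edges he')
      have hK : s(x, y) ∈ K := hKU x hx y (P.c.adj_of_mem_edges he')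
      have e1 := hi _ hK ⟨x, hx, by simp⟩
      have e2 := hi' _ hK ⟨x, hx, by simp⟩
      rw [(wvec_cycle P.isCycle _).1 he'] at e1
      rw [(wvec_cycle P'.isCycle _).2 hne'] at e2
      rw [e1] at e2
      exact one_ne_zero e2
  exact Set.Subset.antisymm (key P P' hP hi hi') (key P' P hP' hi' hi)

/-- In a planar 2-connected graph every edge lies on at most two peripheral cycles. -/
theorem at_most_two (hfin : ∀ v, (H.neighborSet v).Finite)
    (h2c : ∀ x a b : W, a ≠ x → b ≠ x → ∃ w : H.Walk a b, x ∉ w.support)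
    (hpl : MacLanePlanar H) (P : Fin 3 → PeripheralCycle H) (e : Sym2 W)
    (he : ∀ j, e ∈ (P j).edgeSet) : ∃ j k, j ≠ k ∧ (P j).edgeSet = (P k).edgeSet := by
  obtain ⟨K, n, C, U, hKH, hC, -, -, hPU, hKU, hface⟩ :=
    exists_core hfin h2c hpl P ∅ Set.finite_empty ∅ (fun e he => absurd he (Finset.notMem_empty e))
  choose i hi1 hi2 using fun j => hface j e (he j)
  have hij : ∀ j k, i j = i k → (P j).edgeSet = (P k).edgeSet := by
    intro j k hjk
    refine edgeSet_eq_of_face hKU (P j) (P k) (hPU j) (hPU k) (hi2 j) ?_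
    rw [hjk]
    exact hi2 k
  rcases hC.two e (i 0) (i 1) (i 2) (hi1 0) (hi1 1) (hi1 2) with h | h | h
  · exact ⟨0, 1, by decide, hij 0 1 h⟩
  · exact ⟨1, 2, by decide, hij 1 2 h⟩
  · exact ⟨0, 2, by decide, hij 0 2 h⟩

/-- Jordan property: finite cuts are detected by the peripheral cycles. -/
theorem detect_of_facial (hfin : ∀ v, (H.neighborSet v).Finite)
    (h2c : ∀ x a b : W, a ≠ x → b ≠ x → ∃ w : H.Walk a b, x ∉ w.support)
    (hpl : MacLanePlanar H)
    (hfac : ∀ e ∈ H.edgeSet, ∃ P P' : PeripheralCycle H, P.edgeSet ≠ P'.edgeSet ∧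
      e ∈ P.edgeSet ∧ e ∈ P'.edgeSet) (L : ℕ) (hL : ∀ P : PeripheralCycle H, P.c.length ≤ L) :
    ShortCyclesDetectCuts H L := by
  classical
  intro F hF hFH hshort v w
  have hzero : ∀ P : PeripheralCycle H, esum (fun e => if e ∈ F then 1 else 0) P.c = 0 := by
    intro P
    rw [esum_indicator]
    exact (ZMod.natCast_eq_zero_iff_even).2 (hshort P.a P.c (hL P))
  have : Finite F := hF
  choose P1 P2 hne h1 h2 using fun e : F => hfac e.1 (hFH e.2)
  let U0 : Set W := ⋃ e ∈ F, {x | x ∈ e}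
  have hU0 : U0.Finite := by
    apply hF.biUnion
    intro e _
    induction e using Sym2.ind with
    | _ x y =>
      apply (Set.toFinite ({x, y} : Set W)).subset
      intro z hz
      rw [Set.mem_ofPred_eq, Sym2.mem_iff] at hz
      simpa using hz
  obtain ⟨K, n, C, U, hKH, hC, hU0U, hE0K, hPU, hKU, hface⟩ :=
    exists_core hfin h2c hpl (κ := F × Bool) (fun p => if p.2 then P1 p.1 else P2 p.1) U0 hU0
      w.edges.toFinset (fun e he => w.edges_subset_edgeSet (List.mem_toFinset.1 he))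
  have hFU : ∀ e ∈ F, ∃ u ∈ U, u ∈ e := by
    intro e he
    induction e using Sym2.ind with
    | _ x y =>
      refine ⟨x, hU0U ?_, by simp⟩
      simp only [U0, Set.mem_iUnion]
      exact ⟨s(x, y), he, by simp⟩
  have hpair : ∀ j, pair K (fun e => if e ∈ F then 1 else 0) (C j) = 0 := by
    intro j
    by_cases hex : ∃ e, e ∈ F ∧ C j e ≠ 0
    · obtain ⟨e, heF, hje⟩ := hex
      obtain ⟨i1, hi1, hi1'⟩ := hface (⟨e, heF⟩, true) e (h1 ⟨e, heF⟩)
      obtain ⟨i2, hi2, hi2'⟩ := hface (⟨e, heF⟩, false) e (h2 ⟨e, heF⟩)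
      have hPU1 : ∀ x ∈ (P1 ⟨e, heF⟩).c.support, x ∈ U := by
        have := hPU (⟨e, heF⟩, true)
        simpa using this
      have hPU2 : ∀ x ∈ (P2 ⟨e, heF⟩).c.support, x ∈ U := by
        have := hPU (⟨e, heF⟩, false)
        simpa using this
      have hi12 : i1 ≠ i2 := by
        intro h
        subst h
        exact hne ⟨e, heF⟩ (edgeSet_eq_of_face hKU _ _ hPU1 hPU2 hi1' hi2')
      have hgood : ∀ (P : PeripheralCycle H) (i : Option (Fin n)), (∀ x ∈ P.c.support, x ∈ U) →
          (∀ e ∈ K, (∃ u ∈ U, u ∈ e) → C i e = wvec P.c e) →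
          pair K (fun e => if e ∈ F then 1 else 0) (C i) = 0 := by
        intro P i hPU' hPi
        have hPK : ∀ g ∈ P.c.edges, g ∈ K := by
          intro g hg
          induction g using Sym2.ind with
          | _ x y => exact hKU x (hPU' x (P.c.fst_mem_support_of_mem_edges hg)) y
                      (P.c.adj_of_mem_edges hg)
        have : pair K (fun e => if e ∈ F then 1 else 0) (C i) =
            pair K (fun e => if e ∈ F then 1 else 0) (wvec P.c) := by
          unfold pair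
          apply Finset.sum_congr rfl
          intro g hg
          by_cases hgF : g ∈ F
          · rw [hPi g hg (hFU g hgF)]
          · simp [hgF]
        rw [this, pair_wvec K _ P.c hPK]
        exact hzero P
      rcases hC.two e j i1 i2 hje hi1 hi2 with h | h | h
      · rw [h]; exact hgood _ i1 hPU1 hi1'
      · exact absurd h hi12
      · rw [h]; exact hgood _ i2 hPU2 hi2'
    · push Not at hex
      unfold pair
      apply Finset.sum_eq_zero
      intro g _
      by_cases hgF : g ∈ F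
      · rw [hex g hgF, mul_zero]
      · simp [hgF]
  have hwK : ∀ e ∈ w.edges, e ∈ K := fun e he => hE0K (List.mem_toFinset.2 he)
  obtain ⟨J, hJ⟩ := hC.span (wvec w) (isCycleVector_wvec K w hwK)
  have hw0 : esum (fun e => if e ∈ F then 1 else 0) w = 0 := by
    rw [← pair_wvec K _ w hwK, hJ, pair_sum]
    exact Finset.sum_eq_zero (fun j _ => hpair j)
  rw [esum_indicator] at hw0
  exact (ZMod.natCast_eq_zero_iff_even).1 hw0

end H860R3.Lamp
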