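import Pool.Agent.H860R3.Lamp.Core
import Pool.Agent.H279R3.Cuts

/-!
# Mac Lane planar graphs have abstract duals

For a locally finite graph `H` all of whose finite subgraphs satisfy Mac Lane's planarity criterion,
we construct an abstract dual as an ultrafilter limit of the duals of the finite subgraphs.
-/

namespace H860R3.Lamp

open SimpleGraph H279R3

section Dual

variable {W : Type} {H : SimpleGraph W}

open Classical in
/-- indicator vector of an edge set -/
noncomputable def indv (F : Set (Sym2 W)) (e : Sym2 W) : ZMod 2 := if e ∈ F then 1 else 0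

lemma isCycleVector_indv {K : Finset (Sym2 W)} {F : Set (Sym2 W)} (hFK : ∀ e ∈ F, e ∈ K)
    (hF : EvenSet H F) : IsCycleVector K (indv F) := by
  classical
  constructor
  · intro e he
    unfold indv
    rw [if_neg (fun h => he (hFK e h))]
  · intro v
    unfold indv
    rw [Finset.sum_ite, Finset.sum_const_zero, add_zero, Finset.sum_const, nsmul_eq_mul, mul_one]
    have h1 : (F ∩ {e | v ∈ e}).ncard =
        ((K.filter (fun e => v ∈ e)).filter (fun e => e ∈ F)).card := by
      rw [← Set.ncard_coe_finset]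
      congr 1
      ext e
      rw [Finset.mem_coe, Finset.mem_filter, Finset.mem_filter]
      constructor
      · rintro ⟨h1, h2⟩
        exact ⟨⟨hFK e h1, h2⟩, h1⟩
      · rintro ⟨⟨_, h2⟩, h3⟩
        exact ⟨h3, h2⟩
    have h2 := hF.2 v
    rw [h1] at h2
    exact (ZMod.natCast_eq_zero_iff_even).2 h2

/-- the sides of the edges at `v` -/
def sides (H : SimpleGraph W) (v : W) : Set (Sym2 W × Bool) := {x | x.1 ∈ H.edgeSet ∧ v ∈ x.1}

lemma star_finite (hfin : ∀ v, (H.neighborSet v).Finite) (v : W) :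
    {e | e ∈ H.edgeSet ∧ v ∈ e}.Finite := by
  classical
  refine ((hfin v).image (fun w => s(v, w))).subset ?_
  rintro e ⟨he, hv⟩
  obtain ⟨w, rfl⟩ := Sym2.mem_iff_exists.1 hv
  exact ⟨w, he, rfl⟩

lemma sides_finite (hfin : ∀ v, (H.neighborSet v).Finite) (v : W) : (sides H v).Finite := by
  classical
  refine ((star_finite hfin v).prod (Set.finite_univ (α := Bool))).subset ?_
  rintro ⟨e, b⟩ ⟨h1, h2⟩
  exact ⟨⟨h1, h2⟩, Set.mem_univ _⟩

open Classical in
/-- the two elements of the face family at an edge -/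
lemma exists_pair {K : Finset (Sym2 W)} {ι : Type} [Fintype ι] [Inhabited ι]
    {C : ι → Sym2 W → ZMod 2} (hC : FaceFamily K ι C) :
    ∃ p : Sym2 W × Bool → ι, ∀ e (J : Finset ι),
      (∑ j ∈ J, C j) e = (if p (e, false) ∈ J then 1 else 0) + (if p (e, true) ∈ J then 1 else 0) := by
  classical
  have key : ∀ e, ∃ q : Bool → ι, ∀ J : Finset ι, (∑ j ∈ J, C j) e =
      (if q false ∈ J then 1 else 0) + (if q true ∈ J then 1 else 0) := by
    intro e
    by_cases h0 : ∀ i, C i e = 0
    · refine ⟨fun _ => default, fun J => ?_⟩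
      rw [Finset.sum_apply, Finset.sum_eq_zero (fun j _ => h0 j)]
      exact (CharTwo.add_self_eq_zero _).symm
    · push Not at h0
      obtain ⟨i, hi⟩ := h0
      have hex : ∃ j, j ≠ i ∧ C j e ≠ 0 := by
        by_contra hcon
        push Not at hcon
        have := congrFun hC.zero e
        rw [Finset.sum_apply, Finset.sum_eq_single i (fun j _ hj => hcon j hj) (by simp)] at this
        exact hi this
      obtain ⟨j, hji, hj⟩ := hex
      refine ⟨fun b => if b then j else i, fun J => ?_⟩
      have hz : ∀ k, k ≠ i → k ≠ j → C k e = 0 := by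
        intro k hki hkj
        by_contra hk
        rcases hC.two e i j k hi hj hk with h | h | h
        · exact hji h.symm
        · exact hkj h.symm
        · exact hki h.symm
      have hi1 := zmod_ne_zero_eq_one hi
      have hj1 := zmod_ne_zero_eq_one hj
      rw [Finset.sum_apply]
      have hk : ∀ k ∈ J, C k e = (if k = i then 1 else 0) + (if k = j then 1 else 0) := by
        intro k _
        by_cases h1 : k = i
        · subst h1
          rw [if_pos rfl, if_neg hji.symm, hi1, add_zero]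
        · by_cases h2 : k = j
          · subst h2
            rw [if_neg h1, if_pos rfl, hj1, zero_add]
          · rw [if_neg h1, if_neg h2, hz k h1 h2, add_zero]
      rw [Finset.sum_congr rfl hk, Finset.sum_add_distrib, Finset.sum_ite_eq', Finset.sum_ite_eq']
      simp
  choose q hq using key
  exact ⟨fun x => q x.1 x.2, hq⟩

/-- dual of a finite subgraph, in terms of sides of edges -/
lemma finite_dual (hpl : MacLanePlanar H) (K : Finset (Sym2 W)) (hK : ∀ e ∈ K, e ∈ H.edgeSet) :
    ∃ a : Set (Sym2 W) → Sym2 W × Bool → Bool,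
      (∀ F, (∀ e ∈ F, e ∈ K) → EvenSet H F → ∀ e ∈ K, (e ∈ F ↔ a F (e, false) ≠ a F (e, true))) ∧
      (∀ v, (∀ e, e ∈ H.edgeSet → v ∈ e → e ∈ K) → ∀ (S : Set (Set (Sym2 W)))
        (s : Set (Sym2 W) → Bool), Even {x | x ∈ sides H v ∧ ∀ F ∈ S, a F x = s F}.ncard) := by
  classical
  obtain ⟨n, C, hC⟩ := exists_faceFamily hpl K hK
  obtain ⟨p, hp⟩ := exists_pair hC
  have hJ : ∀ F : Set (Sym2 W), ∃ J : Finset (Option (Fin n)), (∀ e ∈ F, e ∈ K) → EvenSet H F →
      indv F = ∑ j ∈ J, C j := by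
    intro F
    by_cases h : (∀ e ∈ F, e ∈ K) ∧ EvenSet H F
    · obtain ⟨J, hJ⟩ := hC.span _ (isCycleVector_indv h.1 h.2)
      exact ⟨J, fun _ _ => hJ⟩
    · exact ⟨∅, fun h1 h2 => absurd ⟨h1, h2⟩ h⟩
  choose J hJ using hJ
  refine ⟨fun F x => decide (p x ∈ J F), ?_, ?_⟩
  · intro F hFK hF e he
    have h1 := congrFun (hJ F hFK hF) e
    rw [hp e (J F)] at h1
    unfold indv at h1
    have h11 : (1 : ZMod 2) + 1 = 0 := by decide
    by_cases h2 : p (e, false) ∈ J F <;> by_cases h3 : p (e, true) ∈ J F <;>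
      by_cases h4 : e ∈ F <;> simp [h2, h3, h4, h11] at h1 ⊢
  · intro v hv S s
    set Q : Finset (Option (Fin n)) :=
      Finset.univ.filter (fun q => ∀ F ∈ S, decide (q ∈ J F) = s F) with hQ
    have hset : {x | x ∈ sides H v ∧ ∀ F ∈ S, decide (p x ∈ J F) = s F} =
        ↑(((K.filter (fun e => v ∈ e)) ×ˢ (Finset.univ : Finset Bool)).filter
          (fun x => p x ∈ Q)) := by
      ext x
      rw [Finset.mem_coe, Finset.mem_filter, Finset.mem_product, Finset.mem_filter, hQ,
        Finset.mem_filter]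
      constructor
      · rintro ⟨h1, h2⟩
        exact ⟨⟨⟨hv _ h1.1 h1.2, h1.2⟩, Finset.mem_univ _⟩, Finset.mem_univ _, h2⟩
      · rintro ⟨⟨⟨h1, h2⟩, _⟩, _, h3⟩
        exact ⟨⟨hK _ h1, h2⟩, h3⟩
    rw [hset, Set.ncard_coe_finset, ← ZMod.natCast_eq_zero_iff_even, Finset.card_filter,
      Finset.sum_product]
    push_cast
    have hterm : ∀ e ∈ K.filter (fun e => v ∈ e),
        (∑ b : Bool, if p (e, b) ∈ Q then (1 : ZMod 2) else 0) = (∑ j ∈ Q, C j) e := by
      intro e _
      rw [hp e, Fintype.sum_bool, add_comm]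
      congr
    rw [Finset.sum_congr rfl hterm]
    exact (IsCycleVector.sum _ hC.cyc).2 v

/-- the limit of the duals of the finite subgraphs -/
lemma limit_dual (hpl : MacLanePlanar H) (hfin : ∀ v, (H.neighborSet v).Finite) :
    ∃ a : Set (Sym2 W) → Sym2 W × Bool → Bool,
      (∀ F, F.Finite → EvenSet H F → ∀ e ∈ H.edgeSet,
        (e ∈ F ↔ a F (e, false) ≠ a F (e, true))) ∧
      (∀ v (S : Finset (Set (Sym2 W))) (s : Set (Sym2 W) → Bool),
        Even {x | x ∈ sides H v ∧ ∀ F ∈ S, a F x = s F}.ncard) := by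
  classical
  have h := fun K : Finset (Sym2 W) => finite_dual hpl (K.filter (fun e => e ∈ H.edgeSet))
    (fun e he => (Finset.mem_filter.1 he).2)
  choose b hb1 hb2 using h
  let U : Ultrafilter (Finset (Sym2 W)) := Ultrafilter.of Filter.atTop
  have hle : (U : Filter (Finset (Sym2 W))) ≤ Filter.atTop := Ultrafilter.of_le _
  have hup : ∀ K0 : Finset (Sym2 W), ∀ᶠ K in (U : Filter (Finset (Sym2 W))), K0 ⊆ K :=
    fun K0 => hle (Filter.mem_atTop K0)
  let a : Set (Sym2 W) → Sym2 W × Bool → Bool := fun F x =>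
    decide (∀ᶠ K in (U : Filter (Finset (Sym2 W))), b K F x = true)
  have hlim : ∀ F x, ∀ᶠ K in (U : Filter (Finset (Sym2 W))), b K F x = a F x := by
    intro F x
    by_cases h : ∀ᶠ K in (U : Filter (Finset (Sym2 W))), b K F x = true
    · have h' : a F x = true := decide_eq_true h
      rw [h']
      exact h
    · have h1 : ∀ᶠ K in (U : Filter (Finset (Sym2 W))), ¬ (b K F x = true) :=
        Ultrafilter.eventually_not.2 h
      have h' : a F x = false := decide_eq_false h
      rw [h']
      filter_upwards [h1] with K hK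
      simpa using hK
  refine ⟨a, ?_, ?_⟩
  · intro F hFf hF e he
    obtain ⟨K, hK, hK0, hK1⟩ := ((hup (hFf.toFinset ∪ {e})).and
      ((hlim F (e, false)).and (hlim F (e, true)))).exists
    have h1 := hb1 K F (fun f hf => Finset.mem_filter.2
      ⟨hK (Finset.mem_union_left _ (hFf.mem_toFinset.2 hf)), hF.1 hf⟩) hF e
      (Finset.mem_filter.2 ⟨hK (Finset.mem_union_right _ (Finset.mem_singleton_self e)), he⟩)
    rw [hK0, hK1] at h1
    exact h1
  · intro v S s
    have h2 : ∀ᶠ K in (U : Filter (Finset (Sym2 W))), ∀ x ∈ sides H v, ∀ F ∈ S,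
        b K F x = a F x := by
      rw [Filter.eventually_all_finite (sides_finite hfin v)]
      intro x _
      rw [Filter.eventually_all_finset S]
      intro F _
      exact hlim F x
    obtain ⟨K, hK1, hK2⟩ := ((hup (star_finite hfin v).toFinset).and h2).exists
    have h3 := hb2 K v (fun e he hv => Finset.mem_filter.2
      ⟨hK1 ((star_finite hfin v).mem_toFinset.2 ⟨he, hv⟩), he⟩) (↑S) s
    have h4 : {x | x ∈ sides H v ∧ ∀ F ∈ S, a F x = s F} =
        {x | x ∈ sides H v ∧ ∀ F ∈ (↑S : Set (Set (Sym2 W))), b K F x = s F} := by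
      ext x
      constructor
      · rintro ⟨h5, h6⟩
        exact ⟨h5, fun F hF => (hK2 x h5 F hF).trans (h6 F hF)⟩
      · rintro ⟨h5, h6⟩
        exact ⟨h5, fun F hF => (hK2 x h5 F hF).symm.trans (h6 F hF)⟩
    rw [h4]
    exact h3

/-! ### The limit dual -/

section Limit

variable (a : Set (Sym2 W) → Sym2 W × Bool → Bool)

/-- two sides not separated by a finite even set -/
def SameSide (H : SimpleGraph W) (x y : Sym2 W × Bool) : Prop :=
  ∀ F : Set (Sym2 W), F.Finite → EvenSet H F → a F x = a F y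

lemma even_class (hfin : ∀ v, (H.neighborSet v).Finite)
    (ha : ∀ v (S : Finset (Set (Sym2 W))) (s : Set (Sym2 W) → Bool),
        Even {x | x ∈ sides H v ∧ ∀ F ∈ S, a F x = s F}.ncard) (v : W) (x0 : Sym2 W × Bool) :
    Even {x | x ∈ sides H v ∧ SameSide a H x x0}.ncard := by
  classical
  have hsep : ∀ x : Sym2 W × Bool, ∃ F : Set (Sym2 W), (F.Finite ∧ EvenSet H F) ∧
      (a F x = a F x0 → SameSide a H x x0) := by
    intro x
    by_cases h : SameSide a H x x0
    · exact ⟨∅, ⟨Set.finite_empty, EvenSet.empty⟩, fun _ => h⟩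
    · unfold SameSide at h
      push Not at h
      obtain ⟨F, h1, h2, h3⟩ := h
      exact ⟨F, ⟨h1, h2⟩, fun h4 => absurd h4 h3⟩
  choose G hG1 hG2 using hsep
  have hs := sides_finite hfin v
  have h1 := ha v (hs.toFinset.image G) (fun F => a F x0)
  have h2 : {x | x ∈ sides H v ∧ SameSide a H x x0} =
      {x | x ∈ sides H v ∧ ∀ F ∈ hs.toFinset.image G, a F x = a F x0} := by
    ext x
    constructor
    · rintro ⟨h3, h4⟩
      refine ⟨h3, fun F hF => ?_⟩
      obtain ⟨y, _, rfl⟩ := Finset.mem_image.1 hF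
      exact h4 _ (hG1 y).1 (hG1 y).2
    · rintro ⟨h3, h4⟩
      exact ⟨h3, hG2 x (h4 _ (Finset.mem_image_of_mem G (hs.mem_toFinset.2 h3)))⟩
  rw [h2]
  exact h1

lemma even_saturated (hfin : ∀ v, (H.neighborSet v).Finite)
    (ha : ∀ v (S : Finset (Set (Sym2 W))) (s : Set (Sym2 W) → Bool),
        Even {x | x ∈ sides H v ∧ ∀ F ∈ S, a F x = s F}.ncard) (v : W)
    (B : Set (Sym2 W × Bool)) (hB : ∀ x y, SameSide a H x y → x ∈ B → y ∈ B) :
    Even {x | x ∈ sides H v ∧ x ∈ B}.ncard := by
  classical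
  let S : Setoid (Sym2 W × Bool) :=
    ⟨SameSide a H, fun x F _ _ => rfl, fun h F h1 h2 => (h F h1 h2).symm,
      fun h h' F h1 h2 => (h F h1 h2).trans (h' F h1 h2)⟩
  have hs := sides_finite hfin v
  have h1 : {x | x ∈ sides H v ∧ x ∈ B} = ↑(hs.toFinset.filter (fun x => x ∈ B)) := by
    ext x
    simp
  rw [h1, Set.ncard_coe_finset]
  rw [Finset.card_eq_sum_card_image (fun x => (Quotient.mk S x))]
  apply Finset.even_sum
  intro q hq
  obtain ⟨x0, hx0, rfl⟩ := Finset.mem_image.1 hq
  rw [Finset.mem_filter] at hx0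
  have h2 := even_class a hfin ha v x0
  have h3 : {x | x ∈ sides H v ∧ SameSide a H x x0} =
      ↑((hs.toFinset.filter (fun x => x ∈ B)).filter
        (fun x => Quotient.mk S x = Quotient.mk S x0)) := by
    ext x
    rw [Finset.mem_coe, Finset.mem_filter, Finset.mem_filter, hs.mem_toFinset, Quotient.eq]
    constructor
    · rintro ⟨h4, h5⟩
      exact ⟨⟨h4, hB x0 x (fun F h6 h7 => (h5 F h6 h7).symm) hx0.2⟩, h5⟩
    · rintro ⟨⟨h4, _⟩, h5⟩
      exact ⟨h4, h5⟩
  rw [h3, Set.ncard_coe_finset] at h2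
  exact h2

/-- counting sides and counting separated edges -/
lemma even_cut_of_even_sides (hfin : ∀ v, (H.neighborSet v).Finite) (v : W)
    (B : Set (Sym2 W × Bool)) (h : Even {x | x ∈ sides H v ∧ x ∈ B}.ncard) :
    Even {e | (e ∈ H.edgeSet ∧ v ∈ e) ∧ ¬ ((e, false) ∈ B ↔ (e, true) ∈ B)}.ncard := by
  classical
  have hs := star_finite hfin v
  have h1 : {x | x ∈ sides H v ∧ x ∈ B} =
      ↑((hs.toFinset ×ˢ (Finset.univ : Finset Bool)).filter (fun x => x ∈ B)) := by
    ext x
    rw [Finset.mem_coe, Finset.mem_filter, Finset.mem_product, hs.mem_toFinset]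
    constructor
    · rintro ⟨h4, h5⟩
      exact ⟨⟨h4, Finset.mem_univ _⟩, h5⟩
    · rintro ⟨⟨h4, _⟩, h5⟩
      exact ⟨h4, h5⟩
  have h2 : {e | (e ∈ H.edgeSet ∧ v ∈ e) ∧ ¬ ((e, false) ∈ B ↔ (e, true) ∈ B)} =
      ↑(hs.toFinset.filter (fun e => ¬ ((e, false) ∈ B ↔ (e, true) ∈ B))) := by
    ext e
    rw [Finset.mem_coe, Finset.mem_filter, hs.mem_toFinset]
    rfl
  rw [h1, Set.ncard_coe_finset, Finset.card_filter, Finset.sum_product] at h
  rw [h2, Set.ncard_coe_finset, Finset.card_filter]
  have h3 : ∀ e ∈ hs.toFinset, (∑ b : Bool, if (e, b) ∈ B then 1 else 0) =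
      (if ¬ ((e, false) ∈ B ↔ (e, true) ∈ B) then 1 else 0) +
        2 * (if (e, false) ∈ B ∧ (e, true) ∈ B then 1 else 0) := by
    intro e _
    rw [Fintype.sum_bool]
    by_cases h4 : (e, false) ∈ B <;> by_cases h5 : (e, true) ∈ B <;> simp [h4, h5]
  rw [Finset.sum_congr rfl h3, Finset.sum_add_distrib, ← Finset.mul_sum] at h
  rw [Nat.even_add] at h
  exact h.2 (even_two_mul _)

end Limit

/-- **Mac Lane planar graphs have abstract duals.** -/
theorem exists_abstractDual (hpl : MacLanePlanar H) (hfin : ∀ v, (H.neighborSet v).Finite) :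
    ∃ K : Type, Nonempty (AbstractDual H K) := by
  classical
  obtain ⟨a, ha1, ha2⟩ := limit_dual hpl hfin
  -- components of the dual
  let R0 : Sym2 W × Bool → Sym2 W × Bool → Prop := fun x y =>
    SameSide a H x y ∨ (x.1 = y.1 ∧ x.1 ∈ H.edgeSet)
  let S0 : Setoid (Sym2 W × Bool) := Relation.EqvGen.setoid R0
  let rep : Sym2 W × Bool → Sym2 W × Bool := fun x => (Quotient.mk S0 x).out
  have hrep : ∀ x y, R0 x y → rep x = rep y := by
    intro x y h
    change (Quotient.mk S0 x).out = (Quotient.mk S0 y).out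
    rw [Quotient.sound (s := S0) (Relation.EqvGen.rel _ _ h)]
  have hreprep : ∀ x, rep (rep x) = rep x := by
    intro x
    change (Quotient.mk S0 (Quotient.mk S0 x).out).out = (Quotient.mk S0 x).out
    rw [Quotient.out_eq]
  -- normalised side functions
  let c : Set (Sym2 W) → Sym2 W × Bool → Bool := fun F x => xor (a F x) (a F (rep x))
  let S1 : Setoid (Sym2 W × Bool) :=
    ⟨SameSide c H, fun x F _ _ => rfl, fun h F h1 h2 => (h F h1 h2).symm,
      fun h h' F h1 h2 => (h F h1 h2).trans (h' F h1 h2)⟩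
  have hR : ∀ x y, SameSide a H x y → SameSide c H x y := by
    intro x y h F hF1 hF2
    change xor (a F x) (a F (rep x)) = xor (a F y) (a F (rep y))
    rw [hrep x y (Or.inl h), h F hF1 hF2]
  have hside : ∀ F, F.Finite → EvenSet H F → ∀ e ∈ H.edgeSet,
      (e ∈ F ↔ c F (e, false) ≠ c F (e, true)) := by
    intro F hF1 hF2 e he
    rw [ha1 F hF1 hF2 e he]
    have h1 : rep (e, false) = rep (e, true) := hrep _ _ (Or.inr ⟨rfl, he⟩)
    change _ ↔ xor (a F (e, false)) (a F (rep (e, false))) ≠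
      xor (a F (e, true)) (a F (rep (e, true)))
    rw [h1]
    cases a F (e, false) <;> cases a F (e, true) <;> cases a F (rep (e, true)) <;> simp
  let ends : Sym2 W → Sym2 (Quotient S1) := fun e =>
    s(Quotient.mk S1 (e, false), Quotient.mk S1 (e, true))
  have hcut : ∀ (A : Set (Quotient S1)) (e : Sym2 W), e ∈ cut H ends A ↔ e ∈ H.edgeSet ∧
      ¬ (Quotient.mk S1 (e, false) ∈ A ↔ Quotient.mk S1 (e, true) ∈ A) := by
    intro A e
    rw [mem_cut_iff (ends := ends) (e := e) rfl A]
    tauto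
  refine ⟨Quotient S1, ⟨⟨ends, ?_, ?_, ?_⟩⟩⟩
  · -- connectedness
    intro A hA
    have hstep : ∀ x y, R0 x y → (Quotient.mk S1 x ∈ A ↔ Quotient.mk S1 y ∈ A) := by
      rintro ⟨e, b⟩ ⟨f, b'⟩ (h | ⟨h1, h2⟩)
      · rw [Quotient.sound (s := S1) (hR _ _ h)]
      · change e = f at h1
        subst h1
        have h3 : e ∉ cut H ends A := by
          rw [hA]
          exact Set.notMem_empty e
        rw [hcut] at h3
        have h4 : Quotient.mk S1 (e, false) ∈ A ↔ Quotient.mk S1 (e, true) ∈ A := by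
          by_contra h5
          exact h3 ⟨h2, h5⟩
        cases b <;> cases b'
        · exact Iff.rfl
        · exact h4
        · exact h4.symm
        · exact Iff.rfl
    have hgen : ∀ x y, Relation.EqvGen R0 x y →
        (Quotient.mk S1 x ∈ A ↔ Quotient.mk S1 y ∈ A) := by
      intro x y h
      induction h with
      | rel x y h => exact hstep x y h
      | refl x => exact Iff.rfl
      | symm x y _ ih => exact ih.symm
      | trans x y z _ _ ih1 ih2 => exact ih1.trans ih2
    have hx : ∀ x, Quotient.mk S1 x ∈ A ↔ Quotient.mk S1 (rep x) ∈ A := by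
      intro x
      apply hgen
      have h1 : Quotient.mk S0 (rep x) = Quotient.mk S0 x := Quotient.out_eq _
      exact (Quotient.exact h1).symm
    have hrr : ∀ x y, Quotient.mk S1 (rep x) = Quotient.mk S1 (rep y) := by
      intro x y
      apply Quotient.sound
      intro F _ _
      change xor (a F (rep x)) (a F (rep (rep x))) = xor (a F (rep y)) (a F (rep (rep y)))
      rw [hreprep, hreprep, Bool.xor_self, Bool.xor_self]
    by_cases hne : A = ∅
    · exact Or.inl hne
    · right
      obtain ⟨q, hq⟩ := Set.nonempty_iff_ne_empty.2 hne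
      induction q using Quotient.inductionOn with
      | h x =>
        ext q'
        induction q' using Quotient.inductionOn with
        | h y =>
          refine ⟨fun _ => Set.mem_univ _, fun _ => ?_⟩
          rw [hx y, ← hrr x y, ← hx x]
          exact hq
  · -- cuts are even
    intro A _
    refine ⟨fun e he => ((hcut A e).1 he).1, fun v => ?_⟩
    have h1 := even_saturated a hfin ha2 v {x | Quotient.mk S1 x ∈ A} (by
      intro x y h hx
      change Quotient.mk S1 y ∈ A
      rw [← Quotient.sound (s := S1) (hR _ _ h)]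
      exact hx)
    have h2 := even_cut_of_even_sides hfin v _ h1
    have h3 : cut H ends A ∩ {e | v ∈ e} = {e | (e ∈ H.edgeSet ∧ v ∈ e) ∧
        ¬ ((e, false) ∈ {x | Quotient.mk S1 x ∈ A} ↔ (e, true) ∈ {x | Quotient.mk S1 x ∈ A})} := by
      ext e
      constructor
      · rintro ⟨h4, h5⟩
        rw [hcut] at h4
        exact ⟨⟨h4.1, h5⟩, h4.2⟩
      · rintro ⟨⟨h4, h5⟩, h6⟩
        exact ⟨(hcut A e).2 ⟨h4, h6⟩, h5⟩
    rw [h3]
    exact h2
  · -- even sets are cuts
    intro F hF1 hF2
    have hmem : ∀ x, Quotient.mk S1 x ∈ {q | ∃ x, Quotient.mk S1 x = q ∧ c F x = true} ↔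
        c F x = true := by
      intro x
      constructor
      · rintro ⟨y, h1, h2⟩
        rw [← Quotient.exact h1 F hF1 hF2]
        exact h2
      · intro h
        exact ⟨x, rfl, h⟩
    refine ⟨{q | ∃ x, Quotient.mk S1 x = q ∧ c F x = true}, ?_⟩
    ext e
    rw [hcut, hmem, hmem]
    constructor
    · rintro ⟨h1, h2⟩
      rw [hside F hF1 hF2 e h1]
      intro h3
      exact h2 (by rw [h3])
    · intro h
      have he := hF2.1 h
      refine ⟨he, ?_⟩
      rw [hside F hF1 hF2 e he] at h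
      intro h3
      apply h
      cases h4 : c F (e, false) <;> cases h5 : c F (e, true) <;> simp_all

end Dual

end H860R3.Lamp
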