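import Pool.Agent.H860R3.Lamp.Planar

/-!
# Peripheral cycles are faces
-/

namespace H860R3.Lamp

open SimpleGraph

variable {W : Type} {H : SimpleGraph W}

lemma zmod_ne_zero_eq_one {x : ZMod 2} (h : x ≠ 0) : x = 1 := by
  revert h; revert x; decide

/-- Peripheral cycles are faces: inside the core `U` some member of the face family agrees with the
peripheral cycle. -/
theorem exists_face {K : Finset (Sym2 W)} (hKH : ∀ e ∈ K, e ∈ H.edgeSet) {ι : Type} [Fintype ι]
    {C : ι → Sym2 W → ZMod 2} (hC : FaceFamily K ι C) {U U1 : Set W}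
    (h1 : ∀ y ∈ U1, ∀ b, H.Adj y b → s(y, b) ∈ K)
    (h2 : ∀ y ∈ U1, ∀ a b, H.Adj y a → H.Adj y b →
      ∃ w : H.Walk a b, y ∉ w.support ∧ ∀ e ∈ w.edges, e ∈ K)
    (hU : U ⊆ U1) (P : PeripheralCycle H)
    (h3 : ∀ x ∈ U, ∀ y ∈ U, x ∉ P.c.support → y ∉ P.c.support →
      ∃ w : H.Walk x y, ∀ z ∈ w.support, z ∈ U1 ∧ z ∉ P.c.support)
    (h4 : ∀ x ∈ P.c.support, x ∈ U ∧ ∀ y, H.Adj x y → y ∈ U) :
    ∀ e0 ∈ P.c.edges, ∃ i, C i e0 ≠ 0 ∧
      ∀ e ∈ K, (∃ u ∈ U, u ∈ e) → C i e = wvec P.c e := by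
  classical
  have hcK : ∀ e ∈ P.c.edges, e ∈ K := by
    intro e he
    induction e using Sym2.ind with
    | _ x y =>
      exact h1 x (hU (h4 x (P.c.fst_mem_support_of_mem_edges he)).1) y (P.c.adj_of_mem_edges he)
  obtain ⟨I, hI⟩ := hC.span (wvec P.c) (isCycleVector_wvec K P.c hcK)
  have hIe : ∀ e, wvec P.c e = ∑ i ∈ I, C i e := by
    intro e
    rw [hI, Finset.sum_apply]
  let cl1 : Sym2 W → Prop := fun e => ∃ i ∈ I, C i e ≠ 0
  have hcl : ∀ e, e ∉ P.c.edges → cl1 e → ∀ j, C j e ≠ 0 → j ∈ I := by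
    rintro e he ⟨i, hi, hie⟩ j hj
    have hsum : ∑ i ∈ I, C i e = 0 := by
      rw [← hIe, (wvec_cycle P.isCycle e).2 he]
    obtain ⟨i', hi', hii', hi'e⟩ : ∃ i' ∈ I, i' ≠ i ∧ C i' e ≠ 0 := by
      by_contra hcon
      push Not at hcon
      rw [Finset.sum_eq_single_of_mem i hi (fun b hb hbi => hcon b hb hbi)] at hsum
      exact hie hsum
    rcases hC.two e i i' j hie hi'e hj with h | h | h
    · exact absurd h.symm hii'
    · exact h ▸ hi'
    · exact h ▸ hi
  -- the class functional at a vertex off the cycle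
  have hfun : ∀ x, x ∉ P.c.support → ∀ j,
      pair K (fun e => if cl1 e then inc x e else 0) (C j) = 0 := by
    intro x hx j
    by_cases hj : j ∈ I
    · have : pair K (fun e => if cl1 e then inc x e else 0) (C j) = pair K (inc x) (C j) := by
        unfold pair
        apply Finset.sum_congr rfl
        intro e _
        by_cases hje : C j e = 0
        · rw [hje, mul_zero, mul_zero]
        · have : cl1 e := ⟨j, hj, hje⟩
          simp only [this, if_true]
      rw [this, pair_inc]
      exact (hC.cyc j).2 x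
    · unfold pair
      apply Finset.sum_eq_zero
      intro e _
      by_cases hxe : x ∈ e
      · have he : e ∉ P.c.edges := fun h => hx (P.c.mem_support_of_mem_edges h hxe)
        by_cases hc : cl1 e
        · have : C j e = 0 := by
            by_contra hne
            exact hj (hcl e he hc j hne)
          rw [this, mul_zero]
        · simp only [hc, if_false, zero_mul]
      · have : inc x e = 0 := by unfold inc; simp [hxe]
        simp only [this, ite_self, zero_mul]
  have hclosed : ∀ x, x ∉ P.c.support → ∀ {u : W} (w : H.Walk u u), (∀ e ∈ w.edges, e ∈ K) →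
      esum (fun e => if cl1 e then inc x e else 0) w = 0 := by
    intro x hx u w hw
    obtain ⟨J, hJ⟩ := hC.span (wvec w) (isCycleVector_wvec K w hw)
    rw [← pair_wvec K _ w hw, hJ, pair_sum]
    exact Finset.sum_eq_zero (fun j _ => hfun x hx j)
  -- vertex lemma
  have hV : ∀ x ∈ U1, x ∉ P.c.support → ∀ e ∈ K, ∀ e' ∈ K, x ∈ e → x ∈ e' →
      (cl1 e ↔ cl1 e') := by
    intro x hxU hx e he e' he' hxe hxe'
    obtain ⟨a, rfl⟩ := Sym2.mem_iff_exists.1 hxe
    obtain ⟨b, rfl⟩ := Sym2.mem_iff_exists.1 hxe'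
    have hxa : H.Adj x a := hKH _ he
    have hxb : H.Adj x b := hKH _ he'
    obtain ⟨w, hw1, hw2⟩ := h2 x hxU a b hxa hxb
    have h0 := hclosed x hx (Walk.cons hxa (w.append (Walk.cons hxb.symm Walk.nil))) (by
      intro g hg
      rw [Walk.edges_cons, Walk.edges_append, List.mem_cons, List.mem_append] at hg
      rcases hg with rfl | hg | hg
      · exact he
      · exact hw2 g hg
      · simp only [Walk.edges_cons, Walk.edges_nil, List.mem_singleton] at hg
        rw [hg, Sym2.eq_swap]; exact he')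
    have hw0 : esum (fun e => if cl1 e then inc x e else 0) w = 0 := by
      apply esum_eq_zero
      intro g hg
      have : x ∉ g := fun h => hw1 (w.mem_support_of_mem_edges hg h)
      have h' : inc x g = 0 := by unfold inc; simp [this]
      simp [h']
    rw [esum_cons, esum_append, esum_cons, esum_nil, hw0, Sym2.eq_swap (a := b) (b := x)] at h0
    have i1 : inc x s(x, a) = 1 := by unfold inc; simp
    have i2 : inc x s(x, b) = 1 := by unfold inc; simp
    simp only [i1, i2, zero_add, add_zero] at h0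
    by_cases c1 : cl1 s(x, a) <;> by_cases c2 : cl1 s(x, b)
    · exact ⟨fun _ => c2, fun _ => c1⟩
    · simp [c1, c2] at h0
    · simp [c1, c2] at h0
    · exact ⟨fun h => absurd h c1, fun h => absurd h c2⟩
  -- propagation
  have hprop : ∀ {x y : W} (w : H.Walk x y), (∀ z ∈ w.support, z ∈ U1 ∧ z ∉ P.c.support) →
      ∀ e ∈ K, ∀ e' ∈ K, x ∈ e → y ∈ e' → (cl1 e ↔ cl1 e') := by
    intro x y w
    induction w with
    | @nil u =>
      intro hs e he e' he' hxe hye'
      exact hV u (hs u (by simp)).1 (hs u (by simp)).2 e he e' he' hxe hye'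
    | @cons u v y h w ih =>
      intro hs e he e' he' hxe hye'
      have hu := hs u (by simp)
      have huv : s(u, v) ∈ K := h1 u hu.1 v h
      exact (hV u hu.1 hu.2 e he s(u, v) huv hxe (by simp)).trans
        (ih (fun z hz => hs z (by simp [hz])) s(u, v) huv e' he' (by simp) hye')
  let X : Prop := ∃ x ∈ U, x ∉ P.c.support ∧ ∃ e ∈ K, x ∈ e ∧ cl1 e
  have hX : ∀ e ∈ K, (∃ u ∈ U, u ∈ e) → e ∉ P.c.edges → (cl1 e ↔ X) := by
    rintro e he ⟨u, huU, hue⟩ heP
    obtain ⟨x, hxU, hx, hxe⟩ : ∃ x ∈ U, x ∉ P.c.support ∧ x ∈ e := by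
      by_cases hus : u ∈ P.c.support
      · obtain ⟨v, rfl⟩ := Sym2.mem_iff_exists.1 hue
        have huv : H.Adj u v := hKH _ he
        refine ⟨v, (h4 u hus).2 v huv, ?_, by simp⟩
        intro hv
        exact heP (P.induced u v hus hv huv)
      · exact ⟨u, huU, hus, hue⟩
    constructor
    · intro h; exact ⟨x, hxU, hx, e, he, hxe, h⟩
    · rintro ⟨x', hx'U, hx', e', he', hx'e', hcl'⟩
      obtain ⟨w, hw⟩ := h3 x' hx'U x hxU hx' hx
      exact (hprop w hw e' he' e he hx'e' hxe).1 hcl'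
  intro e0 he0
  obtain ⟨i, hi0, hivan⟩ : ∃ i, C i e0 ≠ 0 ∧
      ∀ e ∈ K, (∃ u ∈ U, u ∈ e) → e ∉ P.c.edges → C i e = 0 := by
    have hw1 : wvec P.c e0 = 1 := (wvec_cycle P.isCycle e0).1 he0
    by_cases hXX : X
    · -- complement
      have hsum : ∑ i ∈ Finset.univ \ I, C i e0 ≠ 0 := by
        have htot : ∑ i, C i e0 = 0 := by
          have := congrFun hC.zero e0
          rwa [Finset.sum_apply] at this
        have hsplit := Finset.sum_sdiff (f := fun i => C i e0) (Finset.subset_univ I)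
        rw [htot, ← hIe, hw1] at hsplit
        intro h
        rw [h] at hsplit
        simp at hsplit
      obtain ⟨i, hi, hine⟩ := Finset.exists_ne_zero_of_sum_ne_zero hsum
      refine ⟨i, hine, fun e he hue heP => ?_⟩
      by_contra hne
      have := hcl e heP ((hX e he hue heP).2 hXX) i hne
      exact (Finset.mem_sdiff.1 hi).2 this
    · have hsum : ∑ i ∈ I, C i e0 ≠ 0 := by
        rw [← hIe, hw1]; exact one_ne_zero
      obtain ⟨i, hi, hine⟩ := Finset.exists_ne_zero_of_sum_ne_zero hsum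
      refine ⟨i, hine, fun e he hue heP => ?_⟩
      by_contra hne
      exact hXX ((hX e he hue heP).1 ⟨i, hi, hne⟩)
  refine ⟨i, hi0, ?_⟩
  intro e he hue
  by_cases heP : e ∈ P.c.edges
  · have hall := const_on_cycle P.isCycle hcK (hC.cyc i) (by
      intro x hx g hg hxg hgP
      exact hivan g hg ⟨x, (h4 x hx).1, hxg⟩ hgP) he0 hi0
    rw [zmod_ne_zero_eq_one (hall e heP), (wvec_cycle P.isCycle e).1 heP]
  · rw [hivan e he hue heP, (wvec_cycle P.isCycle e).2 heP]

end H860R3.Lamp
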