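import Mathlib
import Pool.Agent.H279R3.Final3
import Pool.Agent.H279R3.Cubic
import Pool.Agent.H279R3.NoSmall
import Pool.Agent.H279R3.PP
import Pool.Agent.H279R3.Short
import Pool.Agent.H279R3.ShortCycles
import Pool.Agent.H279R3.Dich
import Pool.Agent.H279R3.B0
import Pool.Agent.H279R3.BigT
import Pool.Agent.H279R3.Core
import Pool.Agent.H279R3.M1
import Pool.Agent.H279R3.M2a
import Pool.Agent.H279R3.M2b
import Pool.Agent.H279R3.M2c
import Pool.Agent.H279R3.M3
import Pool.Agent.H279R3.W1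
import Pool.Agent.H279R3.W2
import Pool.Agent.H860R3.Lamp.Dual

open SimpleGraph H279R3 H860R3.Lamp

theorem full :
    ∃ (V : Type) (G : SimpleGraph V),
      (∀ v, (G.neighborSet v).Finite) ∧
      (∃ S : Set V, S.Finite ∧ ∀ v, ∃ s ∈ S, ∃ φ : G ≃g G, φ s = v) ∧
      (∀ k, ¬ HasTreeDecomp G k) ∧
      ∀ H : G.Subgraph, (WhitneyPlanar H.coe ∨ MacLanePlanar H.coe) →
        (∃ S : Set H.verts, S.Finite ∧ ∀ v, ∃ s ∈ S, ∃ φ : H.coe ≃g H.coe, φ s = v) →
        ∃ k, HasTreeDecomp H.coe k := by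
  obtain ⟨h1, h2, h3, f, hf⟩ := m1
  refine ⟨Finset ℤ × ℤ, cubicLamp, fun v => (h1 v).1, h2, h3, ?_⟩
  intro H hpl hqt
  have himg : ∀ v : H.verts, (fun w : H.verts => (w : Finset ℤ × ℤ)) '' (H.coe.neighborSet v) ⊆
      cubicLamp.neighborSet v.1 := by
    rintro v _ ⟨w, hw, rfl⟩
    exact H.adj_sub hw
  have hcub : SubCubic H.coe := by
    intro v
    have hfin : (H.coe.neighborSet v).Finite :=
      Set.Finite.of_finite_image ((h1 v.1).1.subset (himg v)) Subtype.val_injective.injOn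
    refine ⟨hfin, ?_⟩
    rw [← Set.ncard_image_of_injective _ Subtype.val_injective]
    exact (Set.ncard_le_ncard (himg v) (h1 v.1).1).trans (h1 v.1).2
  have hdual : ∃ K : Type, Nonempty (AbstractDual H.coe K) := by
    rcases hpl with hpl | hpl
    · obtain ⟨K, ends, ha, hb⟩ := w1 _ _ (fun v => (hcub v).1) hpl
      exact w2 _ _ _ ends ha hb
    · exact exists_abstractDual hpl (fun v => (hcub v).1)
  obtain ⟨K, ⟨D⟩⟩ := hdual
  obtain ⟨r, hr⟩ := generated_of_planar core cubic nosmall pp short shortCycles dich b0 bigT m2a m2b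
    m2c m3 D hcub hqt
  exact ⟨_, hasTreeDecomp_of_generated (f.comp H.hom) (hf.comp H.hom_injective) hr⟩


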