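import Pool.Agent.H860R3.Lamp.Cluster

/-!
# The lamplighter graph
-/

namespace H860R3.Lamp

open SimpleGraph

/-- The lamplighter graph: the Cayley graph of the lamplighter group `Z/2 ≀ Z` with respect to the
generators `t` and `at` (the Diestel-Leader graph `DL(2,2)`).  A vertex `(S, p)` consists of the
finite set `S` of lit lamps and the position `p` of the lamplighter; when moving from `p` to
`p + 1` (or back) the lamp at `p` may be switched. -/
def lamplighter : SimpleGraph (Finset ℤ × ℤ) where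
  Adj u v := (v.2 = u.2 + 1 ∧ ∀ i, i ≠ u.2 → (i ∈ u.1 ↔ i ∈ v.1)) ∨
    (u.2 = v.2 + 1 ∧ ∀ i, i ≠ v.2 → (i ∈ u.1 ↔ i ∈ v.1))
  symm := ⟨by
    rintro u v (⟨h1, h2⟩ | ⟨h1, h2⟩)
    · exact Or.inr ⟨h1, fun i hi => (h2 i hi).symm⟩
    · exact Or.inl ⟨h1, fun i hi => (h2 i hi).symm⟩⟩
  loopless := ⟨by
    rintro u (⟨h1, _⟩ | ⟨h1, _⟩) <;> omega⟩

lemma lamplighter_adj_pos {u v : Finset ℤ × ℤ} (h : lamplighter.Adj u v) : |u.2 - v.2| ≤ 1 := by
  rw [abs_le]
  rcases h with ⟨h, _⟩ | ⟨h, _⟩ <;> constructor <;> omega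

lemma lamplighter_adj_lamp {u v : Finset ℤ × ℤ} (h : lamplighter.Adj u v) (i : ℤ)
    (hi : 1 < |i - u.2|) : (i ∈ u.1 ↔ i ∈ v.1) := by
  rw [lt_abs] at hi
  rcases h with ⟨h, h'⟩ | ⟨h, h'⟩
  · exact h' i (by omega)
  · exact h' i (by omega)

section Confine

variable {W : Type} {H : SimpleGraph W} (f : H →g lamplighter)

lemma walk_pos : ∀ {x y : W} (w : H.Walk x y), |(f x).2 - (f y).2| ≤ w.length
  | _, _, Walk.nil => by simp
  | x, y, Walk.cons (v := z) h p => by
    have ih := walk_pos p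
    have h1 := lamplighter_adj_pos (f.map_adj h)
    rw [Walk.length_cons]
    push_cast
    rw [abs_le] at *
    constructor <;> omega

lemma walk_lamp : ∀ {x y : W} (w : H.Walk x y) (i : ℤ), (w.length : ℤ) < |i - (f x).2| →
    (i ∈ (f x).1 ↔ i ∈ (f y).1)
  | _, _, Walk.nil, _, _ => Iff.rfl
  | x, y, Walk.cons (v := z) h p, i, hi => by
    have h1 := lamplighter_adj_pos (f.map_adj h)
    rw [Walk.length_cons] at hi
    push_cast at hi
    rw [lt_abs] at hi
    rw [abs_le] at h1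
    have hlen : (0 : ℤ) ≤ p.length := by positivity
    refine (lamplighter_adj_lamp (f.map_adj h) i ?_).trans (walk_lamp p i ?_)
    · rw [lt_abs]; omega
    · rw [lt_abs]; omega

lemma ediv_close {M : ℤ} (hM : 0 < M) {x y : ℤ} (h : |x - y| < M) : |x / M - y / M| ≤ 1 := by
  have hx1 : M * (x / M) ≤ x := Int.mul_ediv_self_le (ne_of_gt hM)
  have hx2 : x < M * (x / M) + M := Int.lt_mul_ediv_self_add hM
  have hy1 : M * (y / M) ≤ y := Int.mul_ediv_self_le (ne_of_gt hM)
  have hy2 : y < M * (y / M) + M := Int.lt_mul_ediv_self_add hM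
  rw [abs_lt] at h
  rw [abs_le]
  constructor
  · by_contra hc
    have : x / M - y / M ≤ -2 := by omega
    nlinarith
  · by_contra hc
    have : 2 ≤ x / M - y / M := by omega
    nlinarith

variable (L : ℕ)

/-- the block index -/
def blk (x : W) : ℤ := (f x).2 / ((L : ℤ) + 1)

variable {L}

lemma blk_bounds (x : W) : ((L : ℤ) + 1) * blk f L x ≤ (f x).2 ∧
    (f x).2 < ((L : ℤ) + 1) * blk f L x + ((L : ℤ) + 1) := by
  have hM : (0 : ℤ) < (L : ℤ) + 1 := by positivity
  exact ⟨Int.mul_ediv_self_le (ne_of_gt hM), Int.lt_mul_ediv_self_add hM⟩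

lemma blk_close (x y : W) (w : H.Walk x y) (hw : w.length ≤ L) : |blk f L x - blk f L y| ≤ 1 := by
  have hM : (0 : ℤ) < (L : ℤ) + 1 := by positivity
  apply ediv_close hM
  have := walk_pos f w
  have h2 : (w.length : ℤ) ≤ L := by exact_mod_cast hw
  omega

lemma cluster_confine {x y : W} (h : cl H L (blk f L) x = cl H L (blk f L) y) :
    blk f L x = blk f L y ∧ ∀ i : ℤ, (i < ((L : ℤ) + 1) * blk f L x - ((L : ℤ) + 1) ∨
      ((L : ℤ) + 1) * blk f L x + 2 * ((L : ℤ) + 1) ≤ i) → (i ∈ (f x).1 ↔ i ∈ (f y).1) := by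
  have h' := eqvGen_of_cl_eq h
  clear h
  induction h' with
  | rel x y h =>
    obtain ⟨h1, w, hw⟩ := h
    refine ⟨h1, fun i hi => walk_lamp f w i ?_⟩
    obtain ⟨hb1, hb2⟩ := blk_bounds (L := L) f x
    have h2 : (w.length : ℤ) ≤ L := by exact_mod_cast hw
    rw [lt_abs]
    omega
  | refl x => exact ⟨rfl, fun i _ => Iff.rfl⟩
  | symm x y _ ih =>
    obtain ⟨ih1, ih2⟩ := ih
    refine ⟨ih1.symm, fun i hi => (ih2 i ?_).symm⟩
    rw [ih1]; exact hi
  | trans x y z _ _ ih1 ih2 =>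
    obtain ⟨a1, a2⟩ := ih1
    obtain ⟨b1, b2⟩ := ih2
    refine ⟨a1.trans b1, fun i hi => (a2 i hi).trans (b2 i ?_)⟩
    rw [← a1]; exact hi

/-- The bag at the cluster of `a`. -/
def bagAt (L : ℕ) (a : W) : Set W := {v | cl H L (blk f L) v = cl H L (blk f L) a ∨
      (clGraph H L (blk f L)).Adj (cl H L (blk f L) a) (cl H L (blk f L) v)}

lemma bag_confine (hL : 1 ≤ L) {a v : W} (hv : v ∈ bagAt f L a) :
    (((L : ℤ) + 1) * blk f L a - 2 * ((L : ℤ) + 1) ≤ (f v).2 ∧
      (f v).2 < ((L : ℤ) + 1) * blk f L a + 3 * ((L : ℤ) + 1)) ∧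
    ∀ i : ℤ, (i < ((L : ℤ) + 1) * blk f L a - 2 * ((L : ℤ) + 1) ∨
      ((L : ℤ) + 1) * blk f L a + 3 * ((L : ℤ) + 1) ≤ i) → (i ∈ (f a).1 ↔ i ∈ (f v).1) := by
  have hM : (0 : ℤ) < (L : ℤ) + 1 := by positivity
  have hL' : (1 : ℤ) ≤ L := by exact_mod_cast hL
  rcases hv with hv | hv
  · obtain ⟨h1, h2⟩ := cluster_confine f hv
    obtain ⟨hb1, hb2⟩ := blk_bounds (L := L) f v
    rw [h1] at hb1 hb2
    refine ⟨⟨by omega, by omega⟩, fun i hi => (h2 i ?_).symm⟩
    rw [h1]; omega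
  · obtain ⟨_, u, u', huu, hu, hu'⟩ := hv
    obtain ⟨h1, h2⟩ := cluster_confine f hu
    obtain ⟨h3, h4⟩ := cluster_confine f hu'
    have hclose := blk_close (L := L) f u u' (Walk.cons huu Walk.nil) (by simpa using hL)
    rw [h1, h3, abs_le] at hclose
    obtain ⟨hb1, hb2⟩ := blk_bounds (L := L) f v
    obtain ⟨hc1, hc2⟩ := blk_bounds (L := L) f u
    rw [h1] at hc1 hc2
    have hlo : ((L : ℤ) + 1) * blk f L a - ((L : ℤ) + 1) ≤ ((L : ℤ) + 1) * blk f L v := by
      nlinarith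
    have hhi : ((L : ℤ) + 1) * blk f L v ≤ ((L : ℤ) + 1) * blk f L a + ((L : ℤ) + 1) := by
      nlinarith
    refine ⟨⟨by omega, by omega⟩, fun i hi => ?_⟩
    have e1 : (i ∈ (f u).1 ↔ i ∈ (f a).1) := h2 i (by rw [h1]; omega)
    have e2 : (i ∈ (f u).1 ↔ i ∈ (f u').1) := by
      apply lamplighter_adj_lamp (f.map_adj huu) i
      rw [lt_abs]
      omega
    have e3 : (i ∈ (f u').1 ↔ i ∈ (f v).1) := h4 i (by rw [h3]; omega)
    exact e1.symm.trans (e2.trans e3)

lemma bag_card (hL : 1 ≤ L) (hf : Function.Injective f) (a : W) :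
    (bagAt f L a).Finite ∧
      (bagAt f L a).ncard ≤ (5 * (L + 1)) * 2 ^ (5 * (L + 1)) + 1 := by
  classical
  set lo : ℤ := ((L : ℤ) + 1) * blk f L a - 2 * ((L : ℤ) + 1) with hlo
  set hi : ℤ := ((L : ℤ) + 1) * blk f L a + 3 * ((L : ℤ) + 1) with hhi
  let F : W → ℤ × Finset ℤ := fun v => ((f v).2, (f v).1 ∩ Finset.Ico lo hi)
  let t : Finset (ℤ × Finset ℤ) := Finset.Ico lo hi ×ˢ (Finset.Ico lo hi).powerset
  have hmaps : ∀ v ∈ bagAt f L a, F v ∈ (t : Set (ℤ × Finset ℤ)) := by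
    intro v hv
    obtain ⟨⟨h1, h2⟩, _⟩ := bag_confine f hL hv
    simp only [t, F, Finset.coe_product, Set.mem_prod, Finset.mem_coe, Finset.mem_Ico,
      Finset.mem_powerset]
    exact ⟨⟨h1, h2⟩, Finset.inter_subset_right⟩
  have hinj : Set.InjOn F (bagAt f L a) := by
    intro v hv v' hv' hF
    obtain ⟨_, h2⟩ := bag_confine f hL hv
    obtain ⟨_, h2'⟩ := bag_confine f hL hv'
    simp only [F, Prod.mk.injEq] at hF
    apply hf
    refine Prod.ext ?_ hF.1
    ext i
    by_cases hi' : i ∈ Finset.Ico lo hi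
    · have := Finset.ext_iff.1 hF.2 i
      simpa [hi', Finset.mem_inter] using this
    · rw [Finset.mem_Ico, not_and_or, not_le, not_lt] at hi'
      exact (h2 i hi').symm.trans (h2' i hi')
  have hfin : (bagAt f L a).Finite := Set.Finite.of_injOn hmaps hinj t.finite_toSet
  refine ⟨hfin, ?_⟩
  have hle := Set.ncard_le_ncard_of_injOn F hmaps hinj t.finite_toSet
  rw [Set.ncard_coe_finset] at hle
  have hcard : t.card = (5 * (L + 1)) * 2 ^ (5 * (L + 1)) := by
    have : (hi - lo).toNat = 5 * (L + 1) := by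
      rw [hlo, hhi]; omega
    simp only [t, Finset.card_product, Int.card_Ico, Finset.card_powerset, this]
  omega

end Confine

lemma ShortCyclesDetectCuts.mono {W : Type} {H : SimpleGraph W} {L L' : ℕ} (h : L ≤ L')
    (hg : ShortCyclesDetectCuts H L) : ShortCyclesDetectCuts H L' :=
  fun F hF hFH hshort => hg F hF hFH (fun v c hc => hshort v c (hc.trans h))

/-- A graph that maps injectively into the lamplighter graph and whose finite cuts are detected by
closed walks of bounded length has bounded treewidth. -/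
theorem boundedTreewidth_of_hom {W : Type} {H : SimpleGraph W} (f : H →g lamplighter)
    (hf : Function.Injective f) (L : ℕ) (hcut : ShortCyclesDetectCuts H L) :
    BoundedTreewidth H := by
  have hL : 1 ≤ L + 1 := by omega
  refine boundedTreewidth_of_clusters (b := blk f (L + 1)) (L := L + 1) hL
    (fun x y w hw => blk_close f x y w hw) (hcut.mono (by omega))
    ((5 * ((L + 1) + 1)) * 2 ^ (5 * ((L + 1) + 1))) ?_ ?_
  · intro a; exact (bag_card f hL hf a).1
  · intro a; exact (bag_card f hL hf a).2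

end H860R3.Lamp
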