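import Pool.Agent.H860R3.Lamp.Width

/-!
# Peripheral cycles in planar graphs (Mac Lane's definition)
-/

namespace H860R3.Lamp

open SimpleGraph

section Pairing

variable {W : Type} {H : SimpleGraph W}

open Classical in
/-- `z` is an element of the cycle space of the finite graph with edge set `K`: it vanishes outside
`K` and every vertex is incident with an even number of edges of `z`. -/
def IsCycleVector {W : Type} (K : Finset (Sym2 W)) (z : Sym2 W → ZMod 2) : Prop :=
  (∀ e, e ∉ K → z e = 0) ∧ ∀ v : W, ∑ e ∈ K.filter (fun e => v ∈ e), z e = 0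

/-- pairing of a function with an edge vector -/
def pair (K : Finset (Sym2 W)) (φ z : Sym2 W → ZMod 2) : ZMod 2 := ∑ e ∈ K, φ e * z e

open Classical in
/-- incidence function of a vertex -/
noncomputable def inc (v : W) (e : Sym2 W) : ZMod 2 := if v ∈ e then 1 else 0

open Classical in
lemma pair_inc (K : Finset (Sym2 W)) (z : Sym2 W → ZMod 2) (v : W) :
    pair K (inc v) z = ∑ e ∈ K.filter (fun e => v ∈ e), z e := by
  classical
  unfold pair inc
  rw [Finset.sum_filter]
  apply Finset.sum_congr rfl
  intro e _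
  by_cases h : v ∈ e <;> simp [h]

lemma pair_sum (K : Finset (Sym2 W)) (φ : Sym2 W → ZMod 2) {ι : Type} (J : Finset ι)
    (C : ι → Sym2 W → ZMod 2) : pair K φ (∑ j ∈ J, C j) = ∑ j ∈ J, pair K φ (C j) := by
  unfold pair
  rw [Finset.sum_comm]
  apply Finset.sum_congr rfl
  intro e _
  rw [Finset.sum_apply, Finset.mul_sum]

open Classical in
/-- the edge vector of a walk -/
noncomputable def wvec {u v : W} (w : H.Walk u v) (e : Sym2 W) : ZMod 2 := (w.edges.count e : ZMod 2)

lemma pair_list (K : Finset (Sym2 W)) (φ : Sym2 W → ZMod 2) [DecidableEq (Sym2 W)] :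
    ∀ l : List (Sym2 W), (∀ e ∈ l, e ∈ K) →
      ∑ e ∈ K, φ e * (l.count e : ZMod 2) = (l.map φ).sum
  | [], _ => by simp
  | a :: l, h => by
    have ih := pair_list K φ l (fun e he => h e (by simp [he]))
    rw [List.map_cons, List.sum_cons, ← ih]
    have : ∀ e, ((a :: l).count e : ZMod 2) = (l.count e : ZMod 2) + (if a = e then 1 else 0) := by
      intro e
      rw [List.count_cons]
      by_cases h : a = e <;> simp [h]
    simp only [this, mul_add, Finset.sum_add_distrib, mul_ite, mul_one, mul_zero,
      Finset.sum_ite_eq, if_pos (h a (by simp))]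
    ring

lemma pair_wvec (K : Finset (Sym2 W)) (φ : Sym2 W → ZMod 2) {u v : W} (w : H.Walk u v)
    (hw : ∀ e ∈ w.edges, e ∈ K) : pair K φ (wvec w) = esum φ w := by
  classical
  unfold pair wvec esum
  rw [← pair_list K φ w.edges hw]

open Classical in
lemma esum_inc {u v : W} (w : H.Walk u v) (x : W) :
    esum (inc x) w = (if u = x then 1 else 0) + (if v = x then 1 else 0) := by
  refine esum_telescope (inc x) (fun y => if y = x then 1 else 0) w ?_
  intro y z hyz
  have hadj : H.Adj y z := w.adj_of_mem_edges hyz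
  have hne : y ≠ z := hadj.ne
  unfold inc
  by_cases h1 : y = x <;> by_cases h2 : z = x
  · exact absurd (h1.trans h2.symm) hne
  · have : x ≠ z := fun h => h2 h.symm
    simp [Sym2.mem_iff, h1, h2, this]
  · have : x ≠ y := fun h => h1 h.symm
    simp [Sym2.mem_iff, h1, h2, this]
  · have h1' : x ≠ y := fun h => h1 h.symm
    have h2' : x ≠ z := fun h => h2 h.symm
    simp [Sym2.mem_iff, h1, h2, h1', h2']

lemma isCycleVector_wvec (K : Finset (Sym2 W)) {u : W} (w : H.Walk u u)
    (hw : ∀ e ∈ w.edges, e ∈ K) : IsCycleVector K (wvec w) := by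
  classical
  constructor
  · intro e he
    unfold wvec
    have : w.edges.count e = 0 := List.count_eq_zero.2 (fun h => he (hw e h))
    simp [this]
  · intro v
    rw [← pair_inc, pair_wvec K _ w hw, esum_inc]
    exact CharTwo.add_self_eq_zero _

lemma wvec_cycle {a : W} {c : H.Walk a a} (hc : c.IsCycle) (e : Sym2 W) :
    (e ∈ c.edges → wvec c e = 1) ∧ (e ∉ c.edges → wvec c e = 0) := by
  classical
  unfold wvec
  constructor
  · intro h
    rw [List.count_eq_one_of_mem hc.edges_nodup h]
    simp
  · intro h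
    rw [List.count_eq_zero.2 h]
    simp

end Pairing

section Facial

variable {W : Type} {H : SimpleGraph W}

/-- A peripheral (induced and non-separating) cycle of `H`. -/
structure PeripheralCycle {W : Type} (H : SimpleGraph W) where
  /-- base vertex -/
  a : W
  /-- the closed walk -/
  c : H.Walk a a
  isCycle : c.IsCycle
  induced : ∀ x y, x ∈ c.support → y ∈ c.support → H.Adj x y → s(x, y) ∈ c.edges
  nonsep : ∀ x y, x ∉ c.support → y ∉ c.support →
    ∃ w : H.Walk x y, ∀ z ∈ w.support, z ∉ c.support

/-- the edge set of a peripheral cycle -/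
def PeripheralCycle.edgeSet {W : Type} {H : SimpleGraph W} (P : PeripheralCycle H) :
    Set (Sym2 W) := {e | e ∈ P.c.edges}

/-- A family of edge vectors covering each edge at most twice, with zero sum and spanning the
cycle space of `K`. -/
structure FaceFamily (K : Finset (Sym2 W)) (ι : Type) [Fintype ι] (C : ι → Sym2 W → ZMod 2) :
    Prop where
  cyc : ∀ i, IsCycleVector K (C i)
  two : ∀ e, ∀ i j k : ι, C i e ≠ 0 → C j e ≠ 0 → C k e ≠ 0 → i = j ∨ j = k ∨ i = k
  zero : ∑ i, C i = 0
  span : ∀ z, IsCycleVector K z → ∃ J : Finset ι, z = ∑ j ∈ J, C j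

/-- On a cycle, an edge vector that is even at the vertices of the cycle and vanishes on the other
edges at those vertices is constant. -/
lemma const_on_cycle {K : Finset (Sym2 W)} {a : W}
    {c : H.Walk a a} (hc : c.IsCycle) (hcK : ∀ e ∈ c.edges, e ∈ K) {D : Sym2 W → ZMod 2}
    (hD : IsCycleVector K D)
    (hD0 : ∀ x ∈ c.support, ∀ e ∈ K, x ∈ e → e ∉ c.edges → D e = 0) {e0 : Sym2 W}
    (he0 : e0 ∈ c.edges) (h0 : D e0 ≠ 0) : ∀ e ∈ c.edges, D e ≠ 0 := by
  classical
  -- at each vertex of the cycle
  have hlocal : ∀ x ∈ c.support, ∀ e e', e ∈ c.edges → e' ∈ c.edges → x ∈ e → x ∈ e' →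
      D e ≠ 0 → D e' ≠ 0 := by
    intro x hx e e' he he' hxe hxe' hDe
    obtain ⟨y, z, hyz, hN⟩ := Set.ncard_eq_two.1 (hc.ncard_neighborSet_toSubgraph_eq_two hx)
    have hmem : ∀ g, g ∈ c.edges → x ∈ g → g = s(x, y) ∨ g = s(x, z) := by
      intro g hg hxg
      obtain ⟨t, rfl⟩ := Sym2.mem_iff_exists.1 hxg
      have ht : t ∈ c.toSubgraph.neighborSet x := by
        rw [Subgraph.mem_neighborSet, ← Subgraph.mem_edgeSet, Walk.mem_edges_toSubgraph]
        exact hg
      rw [hN] at ht
      rcases ht with rfl | rfl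
      · exact Or.inl rfl
      · exact Or.inr rfl
    have hy : s(x, y) ∈ c.edges := by
      have : y ∈ c.toSubgraph.neighborSet x := by rw [hN]; simp
      rw [Subgraph.mem_neighborSet, ← Subgraph.mem_edgeSet, Walk.mem_edges_toSubgraph] at this
      exact this
    have hz : s(x, z) ∈ c.edges := by
      have : z ∈ c.toSubgraph.neighborSet x := by rw [hN]; simp
      rw [Subgraph.mem_neighborSet, ← Subgraph.mem_edgeSet, Walk.mem_edges_toSubgraph] at this
      exact this
    have hyzne : s(x, y) ≠ s(x, z) := by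
      intro h
      rw [Sym2.congr_right] at h
      exact hyz h
    have hsum := hD.2 x
    have hsum2 : ∑ g ∈ K.filter (fun g => x ∈ g), D g = D s(x, y) + D s(x, z) := by
      rw [← Finset.sum_pair hyzne]
      symm
      apply Finset.sum_subset
      · intro g hg
        rw [Finset.mem_insert, Finset.mem_singleton] at hg
        rw [Finset.mem_filter]
        rcases hg with rfl | rfl
        · exact ⟨hcK _ hy, by simp⟩
        · exact ⟨hcK _ hz, by simp⟩
      · intro g hg hg'
        rw [Finset.mem_filter] at hg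
        apply hD0 x hx g hg.1 hg.2
        intro hgc
        apply hg'
        rcases hmem g hgc hg.2 with rfl | rfl <;> simp
    rw [hsum2] at hsum
    have heq : D s(x, y) = D s(x, z) := by
      have h2 : D s(x, z) + D s(x, z) = 0 := CharTwo.add_self_eq_zero _
      linear_combination hsum - h2
    rcases hmem e he hxe with rfl | rfl <;> rcases hmem e' he' hxe' with rfl | rfl
    · exact hDe
    · rwa [← heq]
    · rwa [heq]
    · exact hDe
  -- propagate
  have hprop : ∀ {u v : W} (p : H.Walk u v), (∀ e ∈ p.edges, e ∈ c.edges) →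
      (∀ x ∈ p.support, x ∈ c.support) →
      (∀ e ∈ c.edges, u ∈ e → D e ≠ 0) → (∀ e ∈ c.edges, v ∈ e → D e ≠ 0) := by
    intro u v p
    induction p with
    | nil => intro _ _ h; exact h
    | @cons u v w h p ih =>
      intro h1 h2 h3
      apply ih (fun e he => h1 e (by simp [he])) (fun x hx => h2 x (by simp [hx]))
      intro e he hve
      have huv : s(u, v) ∈ c.edges := h1 _ (by simp)
      have hDuv : D s(u, v) ≠ 0 := h3 _ huv (by simp)
      exact hlocal v (h2 v (by simp)) s(u, v) e huv he (by simp) hve hDuv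
  intro e he
  -- vertex of e0 and vertex of e
  obtain ⟨x, hx⟩ : ∃ x, x ∈ e0 := by
    induction e0 using Sym2.ind with
    | _ p q => exact ⟨p, by simp⟩
  obtain ⟨y, hy⟩ : ∃ y, y ∈ e := by
    induction e using Sym2.ind with
    | _ p q => exact ⟨p, by simp⟩
  have hxs : x ∈ c.support := c.mem_support_of_mem_edges he0 hx
  have hys : y ∈ c.support := c.mem_support_of_mem_edges he hy
  have hstart : ∀ g ∈ c.edges, x ∈ g → D g ≠ 0 := fun g hg hxg =>
    hlocal x hxs e0 g he0 hg hx hxg h0
  -- walk from x to y inside c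
  have hw1 : ∀ g ∈ c.edges, a ∈ g → D g ≠ 0 := by
    apply hprop (c.dropUntil x hxs) (fun g hg => c.edges_dropUntil_subset_edges hxs hg)
      (fun z hz => c.support_dropUntil_subset_support hxs hz) hstart
  have hw2 := hprop (c.takeUntil y hys) (fun g hg => c.edges_takeUntil_subset_edges hys hg)
      (fun z hz => c.support_takeUntil_subset_support hys hz) hw1
  exact hw2 e he hy

end Facial

end H860R3.Lamp
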