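import Pool.Agent.H860R3.Lamp.Bramble

/-!
# The lamplighter graph has infinite treewidth, is locally finite and vertex-transitive
-/

namespace H860R3.Lamp

open SimpleGraph

section Conn

variable {W : Type} {G : SimpleGraph W}

lemma connIn_of_root {U : Set W} (r : W)
    (h : ∀ v ∈ U, ∃ Q : G.Walk v r, ∀ c ∈ Q.support, c ∈ U) : ConnIn G U := by
  intro a b ha hb
  obtain ⟨Q, hQ⟩ := h a ha
  obtain ⟨Q', hQ'⟩ := h b hb
  refine ⟨Q.append Q'.reverse, ?_⟩
  intro c hc
  rw [Walk.mem_support_append_iff, Walk.support_reverse, List.mem_reverse] at hc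
  rcases hc with hc | hc
  · exact hQ c hc
  · exact hQ' c hc

lemma ConnIn.union {U U' : Set W} (hU : ConnIn G U) (hU' : ConnIn G U') {u v : W}
    (hu : u ∈ U) (hv : v ∈ U') (huv : G.Adj u v) : ConnIn G (U ∪ U') := by
  refine connIn_of_root u ?_
  rintro a (ha | ha)
  · obtain ⟨Q, hQ⟩ := hU a u ha hu
    exact ⟨Q, fun c hc => Or.inl (hQ c hc)⟩
  · obtain ⟨Q, hQ⟩ := hU' a v ha hv
    refine ⟨Q.append (Walk.cons huv.symm Walk.nil), ?_⟩
    intro c hc
    rw [Walk.mem_support_append_iff] at hc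
    rcases hc with hc | hc
    · exact Or.inr (hQ c hc)
    · simp only [Walk.support_cons, Walk.support_nil, List.mem_cons, List.not_mem_nil,
        or_false] at hc
      rcases hc with rfl | rfl
      · exact Or.inr hv
      · exact Or.inl hu

end Conn

/-- upper half of the bramble -/
def upSet (m : ℤ) (x : Finset ℤ) : Set (Finset ℤ × ℤ) :=
  {v | m < v.2 ∧ v.2 ≤ 2 * m ∧ ∀ i, (i < v.2 ∨ 2 * m ≤ i) → (i ∈ v.1 ↔ i ∈ x)}

/-- lower half of the bramble -/
def downSet (m : ℤ) (y : Finset ℤ) : Set (Finset ℤ × ℤ) :=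
  {v | 0 ≤ v.2 ∧ v.2 ≤ m ∧ ∀ i, (i < 0 ∨ v.2 ≤ i) → (i ∈ v.1 ↔ i ∈ y)}

/-- set the lamp at `p` to its state in `x` -/
def setLamp (η : Finset ℤ) (p : ℤ) (x : Finset ℤ) : Finset ℤ := (η.erase p) ∪ (x ∩ {p})

lemma mem_setLamp (η : Finset ℤ) (p : ℤ) (x : Finset ℤ) (i : ℤ) :
    i ∈ setLamp η p x ↔ (i ≠ p ∧ i ∈ η) ∨ (i ∈ x ∧ i = p) := by
  simp [setLamp]

lemma upSet_root (m : ℤ) (x : Finset ℤ) : ∀ (n : ℕ) (v : Finset ℤ × ℤ), v ∈ upSet m x →
    (2 * m - v.2).toNat = n →
    ∃ Q : lamplighter.Walk v (x, 2 * m), ∀ c ∈ Q.support, c ∈ upSet m x := by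
  intro n
  induction n with
  | zero =>
    intro v hv hn
    obtain ⟨h1, h2, h3⟩ := hv
    have hv2 : v.2 = 2 * m := by omega
    have hv1 : v.1 = x := by
      ext i
      apply h3
      rcases lt_or_ge i v.2 with h | h
      · exact Or.inl h
      · exact Or.inr (by omega)
    have hveq : v = (x, 2 * m) := Prod.ext hv1 hv2
    subst hveq
    refine ⟨Walk.nil, fun c hc => ?_⟩
    rw [Walk.support_nil, List.mem_singleton] at hc
    rw [hc]
    exact ⟨h1, h2, h3⟩
  | succ n ih =>
    intro v hv hn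
    have hv' := hv
    obtain ⟨h1, h2, h3⟩ := hv
    have hw : (setLamp v.1 v.2 x, v.2 + 1) ∈ upSet m x := by
      refine ⟨by simp only; omega, by simp only; omega, ?_⟩
      intro i hi
      simp only at hi ⊢
      rw [mem_setLamp]
      by_cases hiv : i = v.2
      · subst hiv; simp
      · have := h3 i (by omega)
        simp [hiv, this]
    obtain ⟨Q, hQ⟩ := ih (setLamp v.1 v.2 x, v.2 + 1) hw (by simp only; omega)
    have hadj : lamplighter.Adj v (setLamp v.1 v.2 x, v.2 + 1) := by
      refine Or.inl ⟨rfl, fun i hi => ?_⟩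
      simp only
      rw [mem_setLamp]
      simp [hi]
    refine ⟨Walk.cons hadj Q, fun c hc => ?_⟩
    rw [Walk.support_cons, List.mem_cons] at hc
    rcases hc with rfl | hc
    · exact hv'
    · exact hQ c hc

lemma downSet_root (m : ℤ) (y : Finset ℤ) : ∀ (n : ℕ) (v : Finset ℤ × ℤ), v ∈ downSet m y →
    v.2.toNat = n →
    ∃ Q : lamplighter.Walk v (y, 0), ∀ c ∈ Q.support, c ∈ downSet m y := by
  intro n
  induction n with
  | zero =>
    intro v hv hn
    obtain ⟨h1, h2, h3⟩ := hv
    have hv2 : v.2 = 0 := by omega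
    have hv1 : v.1 = y := by
      ext i
      apply h3
      rcases lt_or_ge i 0 with h | h
      · exact Or.inl h
      · exact Or.inr (by omega)
    have hveq : v = (y, 0) := Prod.ext hv1 hv2
    subst hveq
    refine ⟨Walk.nil, fun c hc => ?_⟩
    rw [Walk.support_nil, List.mem_singleton] at hc
    rw [hc]
    exact ⟨h1, h2, h3⟩
  | succ n ih =>
    intro v hv hn
    have hv' := hv
    obtain ⟨h1, h2, h3⟩ := hv
    have hw : (setLamp v.1 (v.2 - 1) y, v.2 - 1) ∈ downSet m y := by
      refine ⟨by simp only; omega, by simp only; omega, ?_⟩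
      intro i hi
      simp only at hi ⊢
      rw [mem_setLamp]
      by_cases hiv : i = v.2 - 1
      · subst hiv; simp
      · have := h3 i (by omega)
        simp [hiv, this]
    obtain ⟨Q, hQ⟩ := ih (setLamp v.1 (v.2 - 1) y, v.2 - 1) hw (by simp only; omega)
    have hadj : lamplighter.Adj v (setLamp v.1 (v.2 - 1) y, v.2 - 1) := by
      refine Or.inr ⟨by simp only; omega, fun i hi => ?_⟩
      simp only at hi ⊢
      rw [mem_setLamp]
      simp [hi]
    refine ⟨Walk.cons hadj Q, fun c hc => ?_⟩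
    rw [Walk.support_cons, List.mem_cons] at hc
    rcases hc with rfl | hc
    · exact hv'
    · exact hQ c hc

lemma connIn_upSet (m : ℤ) (x : Finset ℤ) : ConnIn lamplighter (upSet m x) :=
  connIn_of_root (x, 2 * m) fun v hv => upSet_root m x _ v hv rfl

lemma connIn_downSet (m : ℤ) (y : Finset ℤ) : ConnIn lamplighter (downSet m y) :=
  connIn_of_root (y, 0) fun v hv => downSet_root m y _ v hv rfl

lemma touch {m : ℤ} (hm : 1 ≤ m) {x y : Finset ℤ} (hx : x ⊆ Finset.Ico 0 m)
    (hy : y ⊆ Finset.Ico m (2 * m)) :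
    ∃ u ∈ upSet m x, ∃ v ∈ downSet m y, lamplighter.Adj u v := by
  refine ⟨((x ∪ y).erase m, m + 1), ⟨by simp only; omega, by simp only; omega, ?_⟩,
    (x ∪ y, m), ⟨by simp only; omega, by simp only; omega, ?_⟩, Or.inr ⟨rfl, ?_⟩⟩
  · intro i hi
    simp only at hi ⊢
    rw [Finset.mem_erase, Finset.mem_union]
    constructor
    · rintro ⟨h1, h2 | h2⟩
      · exact h2
      · have := Finset.mem_Ico.1 (hy h2); omega
    · intro h
      have := Finset.mem_Ico.1 (hx h)
      exact ⟨by omega, Or.inl h⟩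
  · intro i hi
    simp only at hi ⊢
    rw [Finset.mem_union]
    constructor
    · rintro (h | h)
      · have := Finset.mem_Ico.1 (hx h); omega
      · exact h
    · exact Or.inr
  · intro i hi
    simp only at hi ⊢
    rw [Finset.mem_erase]
    exact ⟨fun h => h.2, fun h => ⟨hi, h⟩⟩

theorem lamplighter_not_boundedTreewidth : ¬ BoundedTreewidth lamplighter := by
  classical
  rintro ⟨k, ⟨D⟩⟩
  let m : ℕ := k + 1
  let Px : Finset (Finset ℤ) := (Finset.Ico (0 : ℤ) (m : ℤ)).powerset
  let Py : Finset (Finset ℤ) := (Finset.Ico (m : ℤ) (2 * (m : ℤ))).powerset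
  have hm : (1 : ℤ) ≤ (m : ℤ) := by simp only [m]; push_cast; omega
  have hPx : Px.card = 2 ^ m := by
    simp [Px]
  have hPy : Py.card = 2 ^ m := by
    have : (2 * (m : ℤ) - m).toNat = m := by omega
    simp [Py, this]
  have hne : (Px ×ˢ Py).Nonempty := by
    refine ⟨(∅, ∅), ?_⟩
    simp [Px, Py]
  obtain ⟨t, ht⟩ := exists_bag_hitting D (Px ×ˢ Py) hne
    (fun xy => upSet m xy.1 ∪ downSet m xy.2)
    (by
      rintro ⟨x, y⟩ hxy
      rw [Finset.mem_product, Finset.mem_powerset, Finset.mem_powerset] at hxy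
      obtain ⟨u, hu, v, hv, huv⟩ := touch hm hxy.1 hxy.2
      exact (connIn_upSet m x).union (connIn_downSet m y) hu hv huv)
    (by
      rintro ⟨x, y⟩ hxy ⟨x', y'⟩ hxy'
      rw [Finset.mem_product, Finset.mem_powerset, Finset.mem_powerset] at hxy hxy'
      obtain ⟨u, hu, v, hv, huv⟩ := touch hm hxy.1 hxy'.2
      obtain ⟨t, h1, h2⟩ := D.adj_bag u v huv
      exact ⟨t, ⟨u, Or.inl hu, h1⟩, ⟨v, Or.inr hv, h2⟩⟩)
  have hcard : (D.bag t).ncard < 2 ^ m := by
    have h1 := D.card_le t
    have h2 : m < 2 ^ m := Nat.lt_two_pow_self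
    simp only [m] at h2 ⊢
    omega
  have hcases : (∀ x ∈ Px, ∃ u ∈ upSet m x, u ∈ D.bag t) ∨
      (∀ y ∈ Py, ∃ u ∈ downSet m y, u ∈ D.bag t) := by
    by_contra hcon
    push Not at hcon
    obtain ⟨⟨x, hx, hx'⟩, ⟨y, hy, hy'⟩⟩ := hcon
    obtain ⟨u, hu, hut⟩ := ht (x, y) (Finset.mem_product.2 ⟨hx, hy⟩)
    rcases hu with hu | hu
    · exact hx' u hu hut
    · exact hy' u hu hut
  rcases hcases with h | h
  · choose! s hs1 hs2 using h
    have hinj : Set.InjOn s (Px : Set (Finset ℤ)) := by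
      intro x hx x' hx' hss
      have h1 := hs1 x hx
      have h2 := hs1 x' hx'
      rw [← hss] at h2
      have hxs : x ⊆ Finset.Ico 0 (m : ℤ) := Finset.mem_powerset.1 hx
      have hxs' : x' ⊆ Finset.Ico 0 (m : ℤ) := Finset.mem_powerset.1 hx'
      ext i
      by_cases hi : i < m
      · exact (h1.2.2 i (Or.inl (hi.trans h1.1))).symm.trans
          (h2.2.2 i (Or.inl (hi.trans h2.1)))
      · constructor
        · intro hh; exact absurd (Finset.mem_Ico.1 (hxs hh)).2 hi
        · intro hh; exact absurd (Finset.mem_Ico.1 (hxs' hh)).2 hi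
    have := Set.ncard_le_ncard_of_injOn s (s := (Px : Set (Finset ℤ))) (t := D.bag t)
      (fun x hx => hs2 x hx) hinj (D.finite t)
    rw [Set.ncard_coe_finset, hPx] at this
    omega
  · choose! s hs1 hs2 using h
    have hinj : Set.InjOn s (Py : Set (Finset ℤ)) := by
      intro x hx x' hx' hss
      have h1 := hs1 x hx
      have h2 := hs1 x' hx'
      rw [← hss] at h2
      have hxs : x ⊆ Finset.Ico (m : ℤ) (2 * m) := Finset.mem_powerset.1 hx
      have hxs' : x' ⊆ Finset.Ico (m : ℤ) (2 * m) := Finset.mem_powerset.1 hx'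
      ext i
      by_cases hi : (m : ℤ) ≤ i
      · exact (h1.2.2 i (Or.inr (h1.2.1.trans hi))).symm.trans
          (h2.2.2 i (Or.inr (h2.2.1.trans hi)))
      · constructor
        · intro hh; exact absurd (Finset.mem_Ico.1 (hxs hh)).1 hi
        · intro hh; exact absurd (Finset.mem_Ico.1 (hxs' hh)).1 hi
    have := Set.ncard_le_ncard_of_injOn s (s := (Py : Set (Finset ℤ))) (t := D.bag t)
      (fun x hx => hs2 x hx) hinj (D.finite t)
    rw [Set.ncard_coe_finset, hPy] at this
    omega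

/-- local finiteness -/
theorem lamplighter_neighbors_finite (v : Finset ℤ × ℤ) :
    (lamplighter.neighborSet v).Finite := by
  classical
  apply Set.Finite.subset (s := (((v.1 ∪ {v.2, v.2 - 1}).powerset ×ˢ
    ({v.2 + 1, v.2 - 1} : Finset ℤ) : Finset (Finset ℤ × ℤ)) : Set (Finset ℤ × ℤ)))
  · exact Finset.finite_toSet _
  · intro w hw
    rw [mem_neighborSet] at hw
    rw [Finset.mem_coe, Finset.mem_product, Finset.mem_powerset]
    rcases hw with ⟨h1, h2⟩ | ⟨h1, h2⟩
    · refine ⟨?_, by simp [h1]⟩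
      intro i hi
      by_cases hiv : i = v.2
      · simp [hiv]
      · have := (h2 i hiv).2 hi
        simp [this]
    · have h3 : w.2 = v.2 - 1 := by omega
      refine ⟨?_, by simp [h3]⟩
      intro i hi
      by_cases hiv : i = v.2 - 1
      · simp [hiv]
      · have := (h2 i (by rw [h3]; exact hiv)).2 hi
        simp [this]

/-- translation of the lamps: symmetric difference with a fixed set -/
def lampAut (D : Finset ℤ) : lamplighter ≃g lamplighter where
  toFun v := (symmDiff v.1 D, v.2)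
  invFun v := (symmDiff v.1 D, v.2)
  left_inv v := by simp
  right_inv v := by simp
  map_rel_iff' := by
    rintro ⟨S, p⟩ ⟨S', q⟩
    simp only [lamplighter, Equiv.coe_fn_mk, Finset.mem_symmDiff]
    constructor
    · rintro (⟨h1, h2⟩ | ⟨h1, h2⟩)
      · refine Or.inl ⟨h1, fun i hi => ?_⟩
        have := h2 i hi
        by_cases hD : i ∈ D <;> simp [hD] at this <;> tauto
      · refine Or.inr ⟨h1, fun i hi => ?_⟩
        have := h2 i hi
        by_cases hD : i ∈ D <;> simp [hD] at this <;> tauto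
    · rintro (⟨h1, h2⟩ | ⟨h1, h2⟩)
      · refine Or.inl ⟨h1, fun i hi => ?_⟩
        have := h2 i hi
        tauto
      · refine Or.inr ⟨h1, fun i hi => ?_⟩
        have := h2 i hi
        tauto

/-- shift of the position and of the lamps -/
def shiftAut (d : ℤ) : lamplighter ≃g lamplighter where
  toFun v := (v.1.map (Equiv.addRight d).toEmbedding, v.2 + d)
  invFun v := (v.1.map (Equiv.addRight (-d)).toEmbedding, v.2 - d)
  left_inv v := by
    refine Prod.ext ?_ (by simp)
    ext i
    simp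
  right_inv v := by
    refine Prod.ext ?_ (by simp)
    ext i
    simp
  map_rel_iff' := by
    rintro ⟨S, p⟩ ⟨S', q⟩
    simp only [lamplighter, Equiv.coe_fn_mk, Finset.mem_map_equiv, Equiv.addRight_symm,
      Equiv.coe_addRight]
    constructor
    · rintro (⟨h1, h2⟩ | ⟨h1, h2⟩)
      · refine Or.inl ⟨by omega, fun i hi => ?_⟩
        have := h2 (i + d) (by omega)
        simpa using this
      · refine Or.inr ⟨by omega, fun i hi => ?_⟩
        have := h2 (i + d) (by omega)
        simpa using this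
    · rintro (⟨h1, h2⟩ | ⟨h1, h2⟩)
      · exact Or.inl ⟨by omega, fun i hi => h2 (i + -d) (by omega)⟩
      · exact Or.inr ⟨by omega, fun i hi => h2 (i + -d) (by omega)⟩

/-- vertex-transitivity -/
theorem lamplighter_transitive (u v : Finset ℤ × ℤ) :
    ∃ φ : lamplighter ≃g lamplighter, φ u = v := by
  refine ⟨((lampAut u.1).trans (shiftAut (v.2 - u.2))).trans (lampAut v.1), ?_⟩
  refine Prod.ext ?_ ?_
  · simp [lampAut, shiftAut]
  · simp [lampAut, shiftAut]

end H860R3.Lamp
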